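import Pool.Agent.MP_5168f5_an.H61Z.Exp

/-! The exponential of a bracket closed subspace is closed under products. -/

namespace H61Z
open IsNilpotent Finset Polynomial

variable {A : Type*} [Ring A] [Algebra ℚ A]

/-- polynomials with all coefficients in `S` -/
def coefSub (S : Submodule ℚ A) : Submodule ℚ A[X] where
  carrier := {P | ∀ m, P.coeff m ∈ S}
  add_mem' := fun ha hb m => by rw [coeff_add]; exact add_mem (ha m) (hb m)
  zero_mem' := fun m => by simp
  smul_mem' := fun c P h m => by rw [coeff_smul]; exact S.smul_mem c (h m)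

theorem mem_coefSub {S : Submodule ℚ A} {P : A[X]} : P ∈ coefSub S ↔ ∀ m, P.coeff m ∈ S := Iff.rfl

/-- the coefficientwise filtration -/
def Filt.poly (Φ : Filt A) : Filt A[X] where
  F n := coefSub (Φ.F n)
  N := Φ.N
  anti n := fun _ h m => Φ.anti n (h m)
  mul_l n x y hx hy := fun m => by
    rw [coeff_mul]; exact Submodule.sum_mem _ fun c _ => Φ.mul_l _ _ _ (hx _) (hy _)
  mul_r n x y hx hy := fun m => by
    rw [coeff_mul]; exact Submodule.sum_mem _ fun c _ => Φ.mul_r _ _ _ (hx _) (hy _)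
  bot x hx := by ext m; simpa using Φ.bot _ (hx m)

noncomputable def ser (K : ℕ) (a : ℕ → A) : A[X] := ∑ n ∈ range K, monomial n (a n)

theorem coeff_ser {K : ℕ} {a : ℕ → A} (h : ∀ n, K ≤ n → a n = 0) (n : ℕ) :
    (ser K a).coeff n = a n := by
  rw [ser, finsetSum_coeff]
  simp only [coeff_monomial]
  rw [sum_ite_eq']
  split_ifs with hn
  · rfl
  · exact (h n (by simpa using hn)).symm

/-- evaluation at one -/
noncomputable def ev1 : A[X] →+* A := eval₂RingHom' (RingHom.id A) 1 fun _ => Commute.one_right _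

theorem ev1_monomial (n : ℕ) (a : A) : ev1 (monomial n a) = a := by
  simp [ev1, eval₂RingHom']

theorem ev1_C (a : A) : ev1 (C a) = a := ev1_monomial 0 a

theorem ev1_ser (K : ℕ) (a : ℕ → A) : ev1 (ser K a) = ∑ n ∈ range K, a n := by
  simp [ser, ev1_monomial]

theorem ev1_mem {S : Submodule ℚ A} {P : A[X]} (h : P ∈ coefSub S) : ev1 P ∈ S := by
  rw [P.as_sum_support, map_sum]
  exact Submodule.sum_mem _ fun m _ => by rw [ev1_monomial]; exact h m

theorem coeff_der (P : A[X]) (n : ℕ) :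
    (derivative P).coeff n = ((n + 1 : ℕ) : ℚ) • P.coeff (n + 1) := by
  rw [coeff_derivative, Nat.cast_smul_eq_nsmul, nsmul_eq_mul', Nat.cast_succ]

theorem coeff_succ_eq (P : A[X]) (n : ℕ) :
    P.coeff (n + 1) = (((n + 1 : ℕ) : ℚ))⁻¹ • (derivative P).coeff n := by
  rw [coeff_der, smul_smul, inv_mul_cancel₀ (by positivity), one_smul]

theorem fact_step (n : ℕ) (x : A) :
    ((n + 1 : ℕ) : ℚ) • ((((n + 1).factorial : ℚ))⁻¹ • x) = ((n.factorial : ℚ))⁻¹ • x := by
  rw [smul_smul]; congr 1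
  rw [Nat.factorial_succ]; push_cast
  have : (n.factorial : ℚ) ≠ 0 := by positivity
  field_simp

/-- the exponential series of `Z` as a polynomial -/
noncomputable def eser (K : ℕ) (Z : A) : A[X] := ser K fun n => ((n.factorial : ℚ))⁻¹ • Z ^ n

theorem coeff_eser {K : ℕ} {Z : A} (h : Z ^ K = 0) (n : ℕ) :
    (eser K Z).coeff n = ((n.factorial : ℚ))⁻¹ • Z ^ n :=
  coeff_ser (fun n hn => by rw [pow_eq_zero_of_le hn h, smul_zero]) n

theorem ev1_eser {K : ℕ} {Z : A} (h : Z ^ K = 0) : ev1 (eser K Z) = exp Z := by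
  rw [eser, ev1_ser, exp_eq_sum h]

theorem der_eser {K : ℕ} {Z : A} (h : Z ^ K = 0) : derivative (eser K Z) = C Z * eser K Z := by
  ext n
  rw [coeff_der, coeff_C_mul, coeff_eser h, coeff_eser h, fact_step, mul_smul_comm, pow_succ']

theorem der_eser' {K : ℕ} {Z : A} (h : Z ^ K = 0) : derivative (eser K Z) = eser K Z * C Z := by
  ext n
  rw [coeff_der, coeff_mul_C, coeff_eser h, coeff_eser h, fact_step, smul_mul_assoc,
    _root_.pow_succ]

theorem neg_pow_zero {K : ℕ} {Z : A} (h : Z ^ K = 0) : (-Z) ^ K = 0 := by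
  rw [neg_pow, h, mul_zero]

theorem eser_mul_neg {K : ℕ} {Z : A} (h : Z ^ K = 0) : eser K Z * eser K (-Z) = 1 := by
  have hd : derivative (eser K Z * eser K (-Z)) = 0 := by
    rw [derivative_mul, der_eser' h, der_eser (neg_pow_zero h), map_neg]; noncomm_ring
  ext n
  cases n with
  | zero => simp [mul_coeff_zero, coeff_eser h, coeff_eser (neg_pow_zero h)]
  | succ n => rw [coeff_succ_eq, hd]; simp [coeff_one]

/-- the logarithmic derivative of an exponential, modulo brackets -/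
theorem dexp (D : A →ₗ[ℚ] A) (hD : ∀ x y, D (x * y) = D x * y + x * D y) {S S' : Submodule ℚ A}
    (hle : S' ≤ S) (hbr : ∀ x ∈ S, ∀ y ∈ S, x * y - y * x ∈ S') {Z : A} (hn : IsNilpotent Z)
    (hZ : Z ∈ S) (hW : D Z ∈ S) : D (exp Z) * exp (-Z) - D Z ∈ S' := by
  obtain ⟨K, h⟩ := hn
  have h1 : D 1 = 0 := by
    have := hD 1 1
    simpa using this
  set P : A[X] := ser K fun n => ((n.factorial : ℚ))⁻¹ • D (Z ^ n) with hP
  have cP : ∀ n, P.coeff n = ((n.factorial : ℚ))⁻¹ • D (Z ^ n) :=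
    coeff_ser fun n hn => by rw [pow_eq_zero_of_le hn h, map_zero, smul_zero]
  have dP : derivative P = C Z * P + C (D Z) * eser K Z := by
    ext n
    rw [coeff_der, coeff_add, coeff_C_mul, coeff_C_mul, cP, cP, coeff_eser h, fact_step,
      pow_succ', hD, smul_add, mul_smul_comm, mul_smul_comm, add_comm]
  have eP : ev1 P = D (exp Z) := by
    rw [hP, ev1_ser, exp_eq_sum h, map_sum]; simp
  set B : A[X] := P * eser K (-Z) with hB
  have dB : derivative B = C (D Z) + (C Z * B - B * C Z) := by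
    rw [hB, derivative_mul, dP, der_eser' (neg_pow_zero h), add_mul, mul_assoc (C (D Z)),
      eser_mul_neg h, map_neg]
    noncomm_ring
  have b0 : B.coeff 0 = 0 := by
    rw [hB, mul_coeff_zero, cP]; simp [h1]
  have bs : ∀ n, B.coeff (n + 1) = (((n + 1 : ℕ) : ℚ))⁻¹ •
      ((C (D Z)).coeff n + (Z * B.coeff n - B.coeff n * Z)) := by
    intro n
    rw [coeff_succ_eq, dB, coeff_add, coeff_sub, coeff_C_mul, coeff_mul_C]
  have b1 : B.coeff 1 = D Z := by
    have := bs 0
    rw [b0] at this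
    simpa using this
  have bS : ∀ n, B.coeff n ∈ S := by
    intro n
    induction n with
    | zero => rw [b0]; exact zero_mem _
    | succ n ih =>
      rw [bs]
      refine S.smul_mem _ (add_mem ?_ (hle (hbr _ hZ _ ih)))
      rw [coeff_C]; split_ifs
      · exact hW
      · exact zero_mem _
  have hm : B - monomial 1 (D Z) ∈ coefSub S' := by
    intro n
    rw [coeff_sub, coeff_monomial]
    rcases n with _ | _ | n
    · simp [b0]
    · simp [b1]
    · rw [if_neg (by omega), sub_zero, bs, coeff_C, if_neg (by omega), zero_add]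
      exact S'.smul_mem _ (hbr _ hZ _ (bS _))
  have := ev1_mem hm
  rwa [map_sub, ev1_monomial, hB, map_mul, eP, ev1_eser (neg_pow_zero h)] at this

theorem coefSub_br {S S' : Submodule ℚ A} (hbr : ∀ x ∈ S, ∀ y ∈ S, x * y - y * x ∈ S') :
    ∀ x ∈ coefSub S, ∀ y ∈ coefSub S, x * y - y * x ∈ coefSub S' := by
  intro x hx y hy m
  rw [coeff_sub, coeff_mul, coeff_mul, ← Finset.Nat.sum_antidiagonal_swap
    (f := fun c => y.coeff c.1 * x.coeff c.2), ← sum_sub_distrib]
  exact Submodule.sum_mem _ fun c _ => hbr _ (hx _) _ (hy _)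

/-- the group property -/
theorem Filt.exp_mul (Φ : Filt A) {g : Submodule ℚ A} (hg : g ≤ Φ.F 0)
    (hbr : ∀ x ∈ g, ∀ y ∈ g, x * y - y * x ∈ g) {x y : A} (hx : x ∈ g) (hy : y ∈ g) :
    ∃ z ∈ g, exp x * exp y = exp z := by
  have hK := Φ.pow_zero' (hg hx)
  have hE : eser (Φ.N + 1) x * C (exp y) - 1 ∈ Φ.poly.F 0 := by
    apply Φ.poly.mul_sub_one'
    · intro m
      rw [coeff_sub, coeff_eser hK, coeff_one]
      cases m with
      | zero => simp
      | succ m =>
        rw [if_neg (by omega), sub_zero]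
        exact Submodule.smul_mem _ _ (Φ.le0 _ (Φ.pow_mem (hg hx) m))
    · intro m
      rw [← C_1, ← C_sub, coeff_C]; split_ifs
      · exact Φ.exp_sub_one (hg hy)
      · exact zero_mem _
  obtain ⟨Z, hZ, hE⟩ := Φ.poly.exp_surj hE
  have hnil := Φ.poly.nil hZ
  have z0 : Z.coeff 0 = y := by
    apply Φ.exp_inj (hZ 0) (hg hy)
    have := map_exp hnil (constantCoeff (R := A))
    rw [hE] at this
    simp only [constantCoeff_apply, mul_coeff_zero, coeff_eser hK, coeff_C_zero] at this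
    simpa using this.symm
  let D : A[X] →ₗ[ℚ] A[X] := (derivative : A[X] →ₗ[A] A[X]).restrictScalars ℚ
  have hDe : D (exp Z) * exp (-Z) = C x := by
    have : D (exp Z) = C x * exp Z := by
      change derivative (exp Z) = _
      rw [hE, derivative_mul, der_eser hK, derivative_C, mul_zero, add_zero, mul_assoc]
    rw [this, mul_assoc, exp_mul_exp_neg_self hnil, mul_one]
  have hS : ∀ n, ∀ a ∈ g ⊔ Φ.F n, ∀ b ∈ g ⊔ Φ.F n, a * b - b * a ∈ g ⊔ Φ.F (n + 1) := by
    intro n a ha b hb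
    obtain ⟨a1, ha1, a2, ha2, rfl⟩ := Submodule.mem_sup.1 ha
    obtain ⟨b1, hb1, b2, hb2, rfl⟩ := Submodule.mem_sup.1 hb
    have hb0 : b1 + b2 ∈ Φ.F 0 := add_mem (hg hb1) (Φ.le0 n hb2)
    have e : (a1 + a2) * (b1 + b2) - (b1 + b2) * (a1 + a2) =
        (a1 * b1 - b1 * a1) + (a1 * b2 - b2 * a1 + (a2 * (b1 + b2) - (b1 + b2) * a2)) := by
      noncomm_ring
    rw [e]
    refine Submodule.add_mem_sup (hbr _ ha1 _ hb1) (add_mem (sub_mem ?_ ?_) (sub_mem ?_ ?_))
    · exact Φ.mul_l _ _ _ (hg ha1) hb2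
    · exact Φ.mul_r _ _ _ hb2 (hg ha1)
    · exact Φ.mul_r _ _ _ ha2 hb0
    · exact Φ.mul_l _ _ _ hb0 ha2
  have key : ∀ n, Z ∈ coefSub (g ⊔ Φ.F n) := by
    intro n
    induction n with
    | zero => exact fun m => Submodule.mem_sup_right (hZ m)
    | succ n ih =>
      have hW : D Z ∈ coefSub (g ⊔ Φ.F n) := fun m => by
        change (derivative Z).coeff m ∈ _
        rw [coeff_der]; exact Submodule.smul_mem _ _ (ih _)
      have h2 := dexp D (fun a b => derivative_mul) (S := coefSub (g ⊔ Φ.F n))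
        (S' := coefSub (g ⊔ Φ.F (n + 1)))
        (fun P hP m => sup_le_sup_left (Φ.anti n) g (hP m)) (coefSub_br (hS n)) hnil ih hW
      rw [hDe] at h2
      intro m
      cases m with
      | zero => rw [z0]; exact Submodule.mem_sup_left hy
      | succ m =>
        rw [coeff_succ_eq]
        refine Submodule.smul_mem _ _ ?_
        have h3 : (C x).coeff m ∈ g ⊔ Φ.F (n + 1) := by
          rw [coeff_C]; split_ifs
          · exact Submodule.mem_sup_left hx
          · exact zero_mem _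
        have h4 := sub_mem h3 (h2 m)
        rw [coeff_sub, sub_sub_cancel] at h4
        exact h4
  refine ⟨ev1 Z, ?_, ?_⟩
  · refine ev1_mem fun m => ?_
    obtain ⟨a1, ha1, a2, ha2, e⟩ := Submodule.mem_sup.1 (key Φ.N m)
    rw [← e, Φ.bot _ ha2, add_zero]; exact ha1
  · rw [← map_exp hnil ev1, hE, map_mul, ev1_eser hK, ev1_C]

end H61Z
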