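import Pool.Agent.MP_5168f5_an.H61Z.Mat

/-! A polynomial chart of the orbit of the base vector, natural in the coefficient ring. -/

namespace H61Z
open IsNilpotent Finset Matrix

variable {ι : Type} [Fintype ι] [DecidableEq ι] {k : Type*} [Field k] [CharZero k]

/-- chart data -/
structure Chart (w : ι → ℝ) (i0 : ι) (g : Submodule k (Matrix ι ι k)) where
  κ : Type
  fin : Fintype κ
  lev : κ → ℕ
  X : κ → Matrix ι ι k
  c : κ → ι → k
  mem : ∀ a, X a ∈ g
  hom : ∀ a, part w (lev a) (X a) = X a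
  supp : ∀ a i, c a i ≠ 0 → w i0 < w i ∧ rk w i i0 = lev a
  rep : ∀ n, ∀ Y ∈ g, ∀ i, w i0 < w i ∧ rk w i i0 = n →
    Y i i0 = ∑ a ∈ univ.filter (fun a => lev a = n), (∑ j, c a j * Y j i0) * X a i i0
  dual1 : ∀ a, ∑ j, c a j * X a j i0 = 1
  dual0 : ∀ a b, a ≠ b → ∑ j, c a j * X b j i0 = 0

attribute [instance] Chart.fin

namespace Chart
variable {w : ι → ℝ} {i0 : ι} {g : Submodule k (Matrix ι ι k)} (C : Chart w i0 g)
variable {R : Type*} [CommRing R] [Algebra ℚ R] [Algebra k R]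
variable {R' : Type*} [CommRing R'] [Algebra ℚ R'] [Algebra k R']

noncomputable def co (p : ι → R) (a : C.κ) : R := ∑ j, algebraMap k R (C.c a j) * p j

noncomputable def xi (n : ℕ) (ψ : C.κ → R) : Matrix ι ι R :=
  ∑ a ∈ univ.filter (fun a => C.lev a = n), ψ a • (C.X a).map (algebraMap k R)

noncomputable def res : ℕ → (ι → R) → (ι → R)
  | 0, p => p
  | n + 1, p => exp (-C.xi n (C.co (res n p))) *ᵥ res n p

/-- chart coordinates of a point -/
noncomputable def Psi (p : ι → R) (a : C.κ) : R := C.co (C.res (C.lev a) p) a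

noncomputable def grp : ℕ → (C.κ → R) → Matrix ι ι R
  | 0, _ => 1
  | n + 1, ψ => grp n ψ * exp (C.xi n ψ)

/-- the number of steps -/
abbrev NN (ι : Type) [Fintype ι] : ℕ := Fintype.card (ι × ι) + 1

/-- the parametrisation -/
noncomputable def phi (ψ : C.κ → R) : ι → R := C.grp (NN ι) ψ *ᵥ Pi.single i0 1

/-- the orbit, as a set cut out by equations -/
def Orb (p : ι → R) : Prop := C.res (NN ι) p = Pi.single i0 1

theorem xi_mem (n : ℕ) (ψ : C.κ → R) : C.xi n ψ ∈ gR R g :=
  Submodule.sum_mem _ fun a _ => Submodule.smul_mem _ _ (mem_gR (C.mem a))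

theorem xi_F (n : ℕ) (ψ : C.κ → R) : C.xi n ψ ∈ (filt w R).F n := by
  refine Submodule.sum_mem _ fun a ha => F_smul w _ (F_map w _ ?_)
  rw [← C.hom a, (mem_filter.1 ha).2]; exact part_mem w _ _

theorem xi_F0 (n : ℕ) (ψ : C.κ → R) : C.xi n ψ ∈ (filt w R).F 0 := (filt w R).le0 n (C.xi_F n ψ)

theorem xi_congr (n : ℕ) {ψ ψ' : C.κ → R} (h : ∀ a, C.lev a = n → ψ a = ψ' a) :
    C.xi n ψ = C.xi n ψ' :=
  sum_congr rfl fun a ha => by rw [h a (mem_filter.1 ha).2]

theorem grp_res (n : ℕ) (p : ι → R) : C.grp n (C.Psi p) *ᵥ C.res n p = p := by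
  induction n with
  | zero => simp [grp, res]
  | succ n ih =>
    have e : C.xi n (C.co (C.res n p)) = C.xi n (C.Psi p) :=
      C.xi_congr n fun a ha => by rw [Psi, ha]
    rw [grp, res, e, mulVec_mulVec, mul_assoc,
      exp_mul_exp_neg_self ((filt w R).nil (C.xi_F0 n _)), mul_one, ih]

theorem phi_Psi {p : ι → R} (h : C.Orb p) : C.phi (C.Psi p) = p := by
  rw [phi, ← h, grp_res]

theorem grp_mem (hg : IsGr w g) (n : ℕ) (ψ : C.κ → R) : ∃ z ∈ gR R g, C.grp n ψ = exp z := by
  induction n with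
  | zero => exact ⟨0, zero_mem _, by simp [grp]⟩
  | succ n ih =>
    obtain ⟨z, hz, e⟩ := ih
    rw [grp, e]; exact hg.exp_mul hz (C.xi_mem n ψ)

theorem co_map (f : R →ₐ[k] R') (p : ι → R) : f ∘ C.co p = C.co (f ∘ p) := by
  funext a; simp [co]

theorem xi_map (f : R →ₐ[k] R') (n : ℕ) (ψ : C.κ → R) : (C.xi n ψ).map f = C.xi n (f ∘ ψ) := by
  ext i j; simp [xi, Matrix.sum_apply]

theorem mulVec_map (f : R →ₐ[k] R') (M : Matrix ι ι R) (p : ι → R) :
    f ∘ (M *ᵥ p) = M.map f *ᵥ (f ∘ p) := by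
  funext i; simp [mulVec, dotProduct]

theorem exp_map' (f : R →ₐ[k] R') {M : Matrix ι ι R} (h : M ∈ (filt w R).F 0) :
    (exp M).map f = exp (M.map f) := exp_map w (f : R →+* R') h

theorem res_map (f : R →ₐ[k] R') (n : ℕ) (p : ι → R) : f ∘ C.res n p = C.res n (f ∘ p) := by
  induction n with
  | zero => rfl
  | succ n ih =>
    rw [res, res, mulVec_map, exp_map' f (neg_mem (C.xi_F0 n _)), Matrix.map_neg _ (map_neg f),
      xi_map, co_map, ih]

theorem Psi_map (f : R →ₐ[k] R') (p : ι → R) : f ∘ C.Psi p = C.Psi (f ∘ p) := by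
  funext a
  have := congrFun (C.co_map f (C.res (C.lev a) p)) a
  rw [res_map] at this
  exact this

theorem grp_map (f : R →ₐ[k] R') (n : ℕ) (ψ : C.κ → R) :
    (C.grp n ψ).map f = C.grp n (f ∘ ψ) := by
  induction n with
  | zero => simp [grp]
  | succ n ih =>
    rw [grp, grp, ← ih, ← xi_map, ← exp_map' f (C.xi_F0 n _)]
    exact Matrix.map_mul (f := f)

theorem single_map (f : R →ₐ[k] R') : f ∘ (Pi.single i0 (1 : R) : ι → R) = Pi.single i0 1 := by
  funext i; by_cases h : i = i0 <;> simp [h]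

theorem phi_map (f : R →ₐ[k] R') (ψ : C.κ → R) : f ∘ C.phi ψ = C.phi (f ∘ ψ) := by
  rw [phi, phi, mulVec_map, grp_map, single_map]

theorem Orb.map {C : Chart w i0 g} (f : R →ₐ[k] R') {p : ι → R} (h : C.Orb p) : C.Orb (f ∘ p) := by
  rw [Orb, ← res_map, h, single_map]

theorem repR (n : ℕ) {Y : Matrix ι ι R} (hY : Y ∈ gR R g) (i : ι)
    (hi : w i0 < w i ∧ rk w i i0 = n) : Y i i0 = C.xi n (C.co fun j => Y j i0) i i0 := by
  refine gR_ind (p := fun Y => Y i i0 = C.xi n (C.co fun j => Y j i0) i i0) ?_ ?_ ?_ ?_ hY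
  · simp [xi, co, Matrix.sum_apply]
  · intro x y hx hy
    rw [Matrix.add_apply, hx, hy]
    simp only [xi, co, Matrix.sum_apply, Matrix.smul_apply, Matrix.add_apply, smul_eq_mul, mul_add,
      sum_add_distrib, add_mul]
  · intro c x hx
    rw [Matrix.smul_apply, hx]
    simp only [xi, co, Matrix.sum_apply, Matrix.smul_apply, smul_eq_mul, mul_sum, sum_mul]
    exact sum_congr rfl fun a _ => sum_congr rfl fun j _ => by ring
  · intro x hx
    rw [map_apply, C.rep n x hx i hi]
    simp [xi, co, Matrix.sum_apply]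

theorem exp_fix {Y : Matrix ι ι R} (hY : Y ∈ (filt w R).F 0) (h : ∀ i, Y i i0 = 0) :
    exp Y *ᵥ Pi.single i0 1 = Pi.single i0 1 := by
  obtain ⟨u, -, e⟩ := (filt w R).exp_sub_one_eq hY
  have h0 : Y *ᵥ Pi.single i0 1 = 0 := by funext i; simp [h]
  rw [sub_eq_iff_eq_add.1 e, add_mulVec, ← mulVec_mulVec, h0, mulVec_zero, zero_add, one_mulVec]

theorem orb_exp (hg : IsGr w g) {Z : Matrix ι ι R} (hZ : Z ∈ gR R g) :
    C.Orb (exp Z *ᵥ Pi.single i0 1) := by
  have key : ∀ n, ∃ Y ∈ gR R g, Y ∈ (filt w R).F n ∧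
      C.res n (exp Z *ᵥ Pi.single i0 1) = exp Y *ᵥ Pi.single i0 1 := by
    intro n
    induction n with
    | zero => exact ⟨Z, hZ, hg.le0 hZ, rfl⟩
    | succ n ih =>
      obtain ⟨Y, hY, hF, e⟩ := ih
      have e1 : C.xi n (C.co (exp Y *ᵥ Pi.single i0 1)) = C.xi n (C.co fun j => Y j i0) := by
        refine C.xi_congr n fun a ha => sum_congr rfl fun j _ => ?_
        by_cases hc : C.c a j = 0
        · simp [hc]
        · have hj := C.supp a j hc
          have h1 : (exp Y - 1 - Y) j i0 = 0 := by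
            by_contra h2
            have := ((filt w R).exp_sub hF j i0 h2).2
            omega
          have h3 : j ≠ i0 := fun e => by rw [e] at hj; exact lt_irrefl _ hj.1
          rw [Matrix.sub_apply, Matrix.sub_apply, one_apply_ne h3, sub_zero, sub_eq_zero] at h1
          simp [h1]
      set ξ := C.xi n (C.co fun j => Y j i0) with hξ
      have hV : part w n Y - ξ ∈ gR R g := sub_mem (hg.partR n hY) (C.xi_mem n _)
      have hVF : part w n Y - ξ ∈ (filt w R).F n := sub_mem (part_mem w n Y) (C.xi_F n _)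
      have hV0 : ∀ i, (-(part w n Y - ξ)) i i0 = 0 := by
        intro i
        rw [Matrix.neg_apply, neg_eq_zero, Matrix.sub_apply, sub_eq_zero]
        by_cases hi : w i0 < w i ∧ rk w i i0 = n
        · rw [part_apply w n Y hi]; exact C.repR n hY i hi
        · rw [part_apply' w n Y hi, hξ, xi, Matrix.sum_apply]
          refine (sum_eq_zero fun a ha => ?_).symm
          rw [Matrix.smul_apply, map_apply, ← C.hom a, (mem_filter.1 ha).2, part_apply' w n _ hi]
          simp
      obtain ⟨z1, hz1, e2⟩ := hg.exp_mul (neg_mem (C.xi_mem n (C.co fun j => Y j i0))) hY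
      obtain ⟨z2, hz2, e3⟩ := hg.exp_mul hz1 (neg_mem hV)
      refine ⟨z2, hz2, (filt w R).mem_of_exp (hg.le0 hz2) ?_, ?_⟩
      · rw [← e3, ← e2]
        have a1 := (filt w R).exp_sub_one (neg_mem (C.xi_F n (C.co fun j => Y j i0)))
        have a2 := (filt w R).exp_sub_one hF
        have a3 := (filt w R).exp_sub_one (neg_mem hVF)
        have b1 := (filt w R).mul_sub_one ((filt w R).mul_sub_one' a1 a2) a3
        have b2 := (filt w R).mul_sub_one a1 a2
        have c1 := (filt w R).exp_sub (neg_mem (C.xi_F n (C.co fun j => Y j i0)))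
        have c2 := (filt w R).exp_sub hF
        have c3 := (filt w R).exp_sub (neg_mem hVF)
        have := add_mem (add_mem (add_mem (add_mem (add_mem b1 b2) c1) c2) c3) (sub_part_mem w hF)
        convert this using 1
        rw [← hξ]; abel
      · rw [res, e, e1, ← e3, ← e2, ← mulVec_mulVec, ← mulVec_mulVec,
          exp_fix ((filt w R).le0 n (neg_mem hVF)) hV0]
  obtain ⟨Y, -, hF, e⟩ := key (NN ι)
  rw [Orb, e, (filt w R).bot Y hF, IsNilpotent.exp_zero, one_mulVec]

theorem orb_phi (hg : IsGr w g) (ψ : C.κ → R) : C.Orb (C.phi ψ) := by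
  obtain ⟨z, hz, e⟩ := C.grp_mem hg (NN ι) ψ
  rw [phi, e]; exact C.orb_exp hg hz

theorem Orb.mul {C : Chart w i0 g} (hg : IsGr w g) {p : ι → R} (h : C.Orb p) {Z : Matrix ι ι R}
    (hZ : Z ∈ gR R g) : C.Orb (exp Z *ᵥ p) := by
  obtain ⟨z, hz, e⟩ := C.grp_mem hg (NN ι) (C.Psi p)
  obtain ⟨z', hz', e'⟩ := hg.exp_mul hZ hz
  rw [← C.phi_Psi h, phi, e, mulVec_mulVec, e']; exact C.orb_exp hg hz'

theorem res_single (n : ℕ) : C.res n (Pi.single i0 (1 : R)) = Pi.single i0 1 ∧
    C.co (Pi.single i0 (1 : R)) = 0 := by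
  have h0 : C.co (Pi.single i0 (1 : R)) = 0 := by
    funext a
    refine sum_eq_zero fun j _ => ?_
    by_cases hc : C.c a j = 0
    · simp [hc]
    · have h3 : j ≠ i0 := fun e => by
        have := C.supp a j hc
        rw [e] at this; exact lt_irrefl _ this.1
      simp [h3]
  refine ⟨?_, h0⟩
  induction n with
  | zero => rfl
  | succ n ih =>
    have : C.xi n (0 : C.κ → R) = 0 := by simp [xi]
    rw [res, ih, h0, this, neg_zero, IsNilpotent.exp_zero, one_mulVec]

theorem Psi_single : C.Psi (Pi.single i0 (1 : R)) = 0 := by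
  funext a; rw [Psi, (C.res_single _).1, (C.res_single 0).2]

theorem grp_zero (n : ℕ) : C.grp n (0 : C.κ → R) = 1 := by
  induction n with
  | zero => rfl
  | succ n ih => rw [grp, ih]; simp [xi]

end Chart
end H61Z
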