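import Pool.Agent.MP_5168f5_an.H61Z.Chart

/-! Existence of chart data and the size of the chart. -/

namespace H61Z
open IsNilpotent Finset Matrix

variable {ι : Type} [Fintype ι] [DecidableEq ι] {k : Type*} [Field k] [CharZero k]

/-- the column of the base vector -/
def colL (i0 : ι) : Matrix ι ι k →ₗ[k] (ι → k) where
  toFun M := fun i => M i i0
  map_add' _ _ := rfl
  map_smul' _ _ := rfl

noncomputable def partL (w : ι → ℝ) (n : ℕ) : Matrix ι ι k →ₗ[k] Matrix ι ι k where
  toFun := part w n
  map_add' := part_add w n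
  map_smul' := part_smul w n

theorem part_part (w : ι → ℝ) (n : ℕ) (x : Matrix ι ι k) : part w n (part w n x) = part w n x := by
  ext i j
  by_cases h : w j < w i ∧ rk w i j = n
  · rw [part_apply w n _ h]
  · rw [part_apply' w n _ h, part_apply' w n _ h]

theorem exists_chart {w : ι → ℝ} (i0 : ι) {g : Submodule k (Matrix ι ι k)} (hg : IsGr w g) :
    Nonempty (Chart w i0 g) := by
  classical
  let V : ℕ → Submodule k (ι → k) := fun n => g.map (colL i0 ∘ₗ partL w n)
  let b := fun n => Module.finBasis k (V n)
  have hx : ∀ n a, ∃ x ∈ g, (colL i0 ∘ₗ partL w n) x = (b n a : ι → k) := fun n a => (b n a).2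
  choose x hxg hxb using hx
  have hL : ∀ n a, ∃ L : (ι → k) →ₗ[k] k, L.comp (V n).subtype = (b n).coord a :=
    fun n a => LinearMap.exists_extend _
  choose L hL using hL
  let c : ∀ n, Fin (Module.finrank k (V n)) → ι → k := fun n a j =>
    if w i0 < w j ∧ rk w j i0 = n then L n a (Pi.single j 1) else 0
  have hc : ∀ n a (Y : Matrix ι ι k), ∑ j, c n a j * Y j i0 = L n a ((colL i0 ∘ₗ partL w n) Y) := by
    intro n a Y
    rw [LinearMap.pi_apply_eq_sum_univ (L n a)]
    refine sum_congr rfl fun j _ => ?_
    change _ = part w n Y j i0 • _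
    by_cases h : w i0 < w j ∧ rk w j i0 = n
    · rw [part_apply w n Y h, smul_eq_mul, mul_comm]
      simp only [c, if_pos h]
      congr 2
      funext i; simp [Pi.single_apply, eq_comm]
    · rw [part_apply' w n Y h]; simp only [c, if_neg h]; simp
  have hrep : ∀ n a (v : V n), L n a v = (b n).repr v a := fun n a v =>
    LinearMap.congr_fun (hL n a) v
  have hpp : ∀ n a, (colL i0 ∘ₗ partL w n) (part w n (x n a)) = (b n a : ι → k) := by
    intro n a
    rw [← hxb]
    change colL i0 (part w n (part w n (x n a))) = colL i0 (part w n (x n a))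
    rw [part_part]
  refine ⟨{
    κ := Σ n : Fin (Chart.NN ι), Fin (Module.finrank k (V n))
    fin := inferInstance
    lev := fun a => a.1
    X := fun a => part w a.1 (x a.1 a.2)
    c := fun a => c a.1 a.2
    mem := fun a => hg.part _ (hxg _ _)
    hom := fun a => part_part _ _ _
    supp := fun a i h => by
      by_contra h1
      exact h (by simp only [c, if_neg h1])
    rep := ?_
    dual1 := fun a => by rw [hc, hpp, hrep]; simp
    dual0 := ?_ }⟩
  · intro n Y hY i hi
    have hn : n < Chart.NN ι := by
      have := rk_le w i i0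
      rw [hi.2] at this
      exact Nat.lt_succ_of_le this
    rw [sum_filter, Fintype.sum_sigma, sum_eq_single (⟨n, hn⟩ : Fin (Chart.NN ι))]
    · simp only [if_true]
      have hv : (colL i0 ∘ₗ partL w n) Y ∈ V n := ⟨Y, hY, rfl⟩
      have h1 := congrFun (congrArg Subtype.val ((b n).sum_repr ⟨_, hv⟩)) i
      change _ = part w n Y i i0 at h1
      rw [part_apply w n Y hi] at h1
      rw [← h1, Submodule.coe_sum, Finset.sum_apply]
      refine sum_congr rfl fun a _ => ?_
      rw [hc, ← hrep, Submodule.coe_smul, Pi.smul_apply, smul_eq_mul, ← hxb]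
      rfl
    · intro m _ hm
      refine sum_eq_zero fun a _ => if_neg fun e => hm (Fin.ext e)
    · simp
  · rintro ⟨n, a⟩ ⟨m, a'⟩ hne
    by_cases e : n = m
    · subst e
      have : a ≠ a' := fun e => hne (by rw [e])
      simp only
      rw [hc, hpp, hrep]; simp [Finsupp.single_apply, this.symm]
    · refine sum_eq_zero fun j _ => ?_
      by_cases h : w i0 < w j ∧ rk w j i0 = n
      · simp only
        rw [part_apply' w m _ fun h' => e (Fin.ext (h.2.symm.trans h'.2)), mul_zero]
      · simp only [c, if_neg h, zero_mul]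

theorem Chart.card_le {w : ι → ℝ} {i0 : ι} {g : Submodule k (Matrix ι ι k)} (C : Chart w i0 g) :
    Fintype.card C.κ ≤ Module.finrank k (g.map (colL i0)) := by
  classical
  let v : C.κ → g.map (colL i0) := fun a => ⟨colL i0 (C.X a), C.X a, C.mem a, rfl⟩
  refine LinearIndependent.fintype_card_le_finrank (b := v) ?_
  rw [Fintype.linearIndependent_iff]
  intro s hs a
  have h1 : ∀ j, ∑ b, s b * C.X b j i0 = 0 := fun j => by
    have := congrFun (congrArg Subtype.val hs) j
    rw [Submodule.coe_sum, Finset.sum_apply] at this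
    exact this
  have h2 : ∑ b, s b * ∑ j, C.c a j * C.X b j i0 = 0 := by
    simp only [mul_sum]
    rw [sum_comm]
    refine sum_eq_zero fun j _ => ?_
    rw [← mul_zero (C.c a j), ← h1 j, mul_sum]
    exact sum_congr rfl fun b _ => by ring
  rw [sum_eq_single a, C.dual1, mul_one] at h2
  · exact h2
  · intro b _ hb; rw [C.dual0 a b hb.symm, mul_zero]
  · simp

end H61Z
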