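import Mathlib

/-! Exponentials in a filtered nilpotent part of a rational algebra. -/

namespace H61Z
open IsNilpotent Finset

/-- a descending filtration of a nilpotent two sided part of `A` -/
structure Filt (A : Type*) [Ring A] [Algebra ℚ A] where
  F : ℕ → Submodule ℚ A
  N : ℕ
  anti : ∀ n, F (n + 1) ≤ F n
  mul_l : ∀ n x y, x ∈ F 0 → y ∈ F n → x * y ∈ F (n + 1)
  mul_r : ∀ n x y, x ∈ F n → y ∈ F 0 → x * y ∈ F (n + 1)
  bot : ∀ x, x ∈ F N → x = 0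

namespace Filt
variable {A : Type*} [Ring A] [Algebra ℚ A] (Φ : Filt A)

theorem mono {m n : ℕ} (h : m ≤ n) : Φ.F n ≤ Φ.F m :=
  antitone_nat_of_succ_le Φ.anti h

theorem le0 (n : ℕ) : Φ.F n ≤ Φ.F 0 := Φ.mono (Nat.zero_le n)

theorem pow_mem {x : A} (hx : x ∈ Φ.F 0) (n : ℕ) : x ^ (n + 1) ∈ Φ.F n := by
  induction n with
  | zero => simpa using hx
  | succ n ih => rw [_root_.pow_succ]; exact Φ.mul_r _ _ _ ih hx

theorem pow_zero' {x : A} (hx : x ∈ Φ.F 0) : x ^ (Φ.N + 1) = 0 :=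
  Φ.bot _ (Φ.pow_mem hx _)

theorem pow_zero2 {x : A} (hx : x ∈ Φ.F 0) : x ^ (Φ.N + 2) = 0 := by
  rw [_root_.pow_succ, Φ.pow_zero' hx, zero_mul]

theorem nil {x : A} (hx : x ∈ Φ.F 0) : IsNilpotent x := ⟨_, Φ.pow_zero' hx⟩

theorem pow_add_sub {Z W : A} {n : ℕ} (hZ : Z ∈ Φ.F 0) (hW : W ∈ Φ.F n) (m : ℕ) :
    (Z + W) ^ (m + 1) - Z ^ (m + 1) ∈ Φ.F n ∧ (Z + W) ^ (m + 2) - Z ^ (m + 2) ∈ Φ.F (n + 1) := by
  have hZW : Z + W ∈ Φ.F 0 := add_mem hZ (Φ.le0 n hW)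
  have key : ∀ m, (Z + W) ^ (m + 1) - Z ^ (m + 1) ∈ Φ.F n →
      (Z + W) ^ (m + 2) - Z ^ (m + 2) ∈ Φ.F (n + 1) := by
    intro m h
    have e : (Z + W) ^ (m + 2) - Z ^ (m + 2) =
        (Z + W) * ((Z + W) ^ (m + 1) - Z ^ (m + 1)) + W * Z ^ (m + 1) := by
      rw [pow_succ' (Z + W) (m + 1), pow_succ' Z (m + 1)]; noncomm_ring
    rw [e]
    exact add_mem (Φ.mul_l _ _ _ hZW h) (Φ.mul_r _ _ _ hW (Φ.le0 _ (Φ.pow_mem hZ m)))
  induction m with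
  | zero =>
    have h : (Z + W) ^ (0 + 1) - Z ^ (0 + 1) ∈ Φ.F n := by simpa using hW
    exact ⟨h, key 0 h⟩
  | succ m ih => exact ⟨Φ.anti n ih.2, key (m + 1) (Φ.anti n ih.2)⟩

theorem exp_split {x : A} (hx : x ∈ Φ.F 0) :
    exp x = 1 + x + ∑ i ∈ range Φ.N, (((i + 2).factorial : ℚ))⁻¹ • x ^ (i + 2) := by
  rw [exp_eq_sum (Φ.pow_zero2 hx), sum_range_succ', sum_range_succ']
  simp only [Nat.factorial_zero, Nat.cast_one, inv_one, pow_zero, one_smul, zero_add,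
    Nat.factorial_one, pow_one]
  abel

theorem exp_add_sub {Z W : A} {n : ℕ} (hZ : Z ∈ Φ.F 0) (hW : W ∈ Φ.F n) :
    exp (Z + W) - exp Z - W ∈ Φ.F (n + 1) := by
  have hZW : Z + W ∈ Φ.F 0 := add_mem hZ (Φ.le0 n hW)
  rw [Φ.exp_split hZW, Φ.exp_split hZ]
  have e : 1 + (Z + W) + ∑ i ∈ range Φ.N, (((i + 2).factorial : ℚ))⁻¹ • (Z + W) ^ (i + 2) -
      (1 + Z + ∑ i ∈ range Φ.N, (((i + 2).factorial : ℚ))⁻¹ • Z ^ (i + 2)) - W =
      ∑ i ∈ range Φ.N, (((i + 2).factorial : ℚ))⁻¹ • ((Z + W) ^ (i + 2) - Z ^ (i + 2)) := by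
    simp only [smul_sub, sum_sub_distrib]; abel
  rw [e]
  exact Submodule.sum_mem _ fun i _ => Submodule.smul_mem _ _ (Φ.pow_add_sub hZ hW i).2

theorem exp_sub {W : A} {n : ℕ} (hW : W ∈ Φ.F n) : exp W - 1 - W ∈ Φ.F (n + 1) := by
  simpa using Φ.exp_add_sub (Z := 0) (zero_mem _) hW

theorem exp_sub_one {W : A} {n : ℕ} (hW : W ∈ Φ.F n) : exp W - 1 ∈ Φ.F n := by
  have := add_mem (Φ.anti n (Φ.exp_sub hW)) hW
  simpa using this

theorem exp_inj {Z Z' : A} (hZ : Z ∈ Φ.F 0) (hZ' : Z' ∈ Φ.F 0) (h : exp Z = exp Z') : Z = Z' := by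
  have : ∀ n, Z' - Z ∈ Φ.F n := by
    intro n
    induction n with
    | zero => exact sub_mem hZ' hZ
    | succ n ih =>
      have h1 := Φ.exp_add_sub hZ ih
      rw [add_sub_cancel, ← h, sub_self, zero_sub] at h1
      exact (Submodule.neg_mem_iff _).1 h1
  exact (sub_eq_zero.1 (Φ.bot _ (this _))).symm

theorem exp_surj {E : A} (hE : E - 1 ∈ Φ.F 0) : ∃ Z ∈ Φ.F 0, exp Z = E := by
  have : ∀ n, ∃ Z ∈ Φ.F 0, E - exp Z ∈ Φ.F n := by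
    intro n
    induction n with
    | zero => exact ⟨0, zero_mem _, by simpa using hE⟩
    | succ n ih =>
      obtain ⟨Z, hZ, h⟩ := ih
      refine ⟨Z + (E - exp Z), add_mem hZ (Φ.le0 n h), ?_⟩
      have h1 := (Submodule.neg_mem_iff _).2 (Φ.exp_add_sub hZ h)
      have e : -(exp (Z + (E - exp Z)) - exp Z - (E - exp Z)) = E - exp (Z + (E - exp Z)) := by
        abel
      rwa [e] at h1
  obtain ⟨Z, hZ, h⟩ := this Φ.N
  exact ⟨Z, hZ, (sub_eq_zero.1 (Φ.bot _ h)).symm⟩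

/-- if the exponential lies in a deep step, so does the exponent -/
theorem mem_of_exp {Z : A} {n : ℕ} (hZ : Z ∈ Φ.F 0) (h : exp Z - 1 ∈ Φ.F n) : Z ∈ Φ.F n := by
  induction n with
  | zero => exact hZ
  | succ n ih =>
    have h1 := sub_mem h (Φ.exp_sub (ih (Φ.anti n h)))
    simpa using h1

/-- products of unipotent elements -/
theorem mul_sub_one {x y : A} {n : ℕ} (hx : x - 1 ∈ Φ.F n) (hy : y - 1 ∈ Φ.F n) :
    x * y - 1 - ((x - 1) + (y - 1)) ∈ Φ.F (n + 1) := by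
  have e : x * y - 1 - ((x - 1) + (y - 1)) = (x - 1) * (y - 1) := by noncomm_ring
  rw [e]; exact Φ.mul_r _ _ _ hx (Φ.le0 n hy)

theorem mul_sub_one' {x y : A} {n : ℕ} (hx : x - 1 ∈ Φ.F n) (hy : y - 1 ∈ Φ.F n) :
    x * y - 1 ∈ Φ.F n := by
  have := add_mem (Φ.anti n (Φ.mul_sub_one hx hy)) (add_mem hx hy)
  simpa using this

/-- `exp Y - 1` is a unit multiple of `Y` -/
theorem exp_sub_one_eq {Y : A} (hY : Y ∈ Φ.F 0) : ∃ u : A, IsUnit u ∧ exp Y - 1 = u * Y := by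
  refine ⟨1 + ∑ i ∈ range Φ.N, (((i + 2).factorial : ℚ))⁻¹ • Y ^ (i + 1), ?_, ?_⟩
  · apply IsNilpotent.isUnit_one_add
    exact Φ.nil (Submodule.sum_mem _ fun i _ => Submodule.smul_mem _ _ (Φ.le0 _ (Φ.pow_mem hY i)))
  · rw [Φ.exp_split hY, add_mul, sum_mul]
    simp only [smul_mul_assoc, ← _root_.pow_succ, one_mul]
    abel

end Filt
end H61Z
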