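import Pool.Agent.MP_5168f5_an.H61Z.Sub
import Pool.Agent.MP_5168f5_an.H61Z.Exist

/-! The zero estimate on an orbit generated by curves of bounded degree. -/

namespace H61Z
open IsNilpotent Finset Matrix Polynomial

universe u
variable {ι : Type} [Fintype ι] [DecidableEq ι] {k : Type u} [Field k] [CharZero k]
variable {w : ι → ℝ} {i0 : ι} {g : Submodule k (Matrix ι ι k)}

namespace Chart
variable (C : Chart w i0 g)

theorem orb_of_infinite {c : ι → k[X]} (h : {τ : k | C.Orb fun i => (c i).eval τ}.Infinite) :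
    C.Orb c := by
  funext i
  rw [← sub_eq_zero]
  refine eq_zero_of_infinite_isRoot _ (h.mono fun τ hτ => ?_)
  have h1 := congrFun (C.res_map (aeval τ : k[X] →ₐ[k] k) (NN ι) c) i
  have h2 := congrFun (single_map (i0 := i0) (aeval τ : k[X] →ₐ[k] k)) i
  have h3 : (aeval τ : k[X] →ₐ[k] k) ∘ c = fun i => (c i).eval τ := by
    funext i; simp [coe_aeval_eq_eval]
  rw [h3, show C.res (NN ι) (fun i => (c i).eval τ) = _ from hτ, ← h2] at h1
  rw [Set.mem_ofPred_eq, IsRoot, eval_sub, sub_eq_zero, ← coe_aeval_eq_eval]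
  exact h1

/-- finitely many points of a curve decide whether it lies in the orbit -/
theorem orb_of_many (D : ℕ) : ∃ E : ℕ, ∀ c : ι → k[X], (∀ i, (c i).natDegree ≤ D) →
    ∀ T : Finset k, E < T.card → (∀ τ ∈ T, C.Orb fun i => (c i).eval τ) → C.Orb c := by
  let ρ : ι → MvPolynomial ι k := C.res (NN ι) MvPolynomial.X
  refine ⟨univ.sup (fun i => (ρ i).totalDegree) * D, fun c hc T hT h => ?_⟩
  funext i
  rw [← sub_eq_zero]
  have e : C.res (NN ι) c i = MvPolynomial.aeval c (ρ i) := by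
    have := congrFun (C.res_map (MvPolynomial.aeval c : MvPolynomial ι k →ₐ[k] k[X]) (NN ι)
      MvPolynomial.X) i
    have h2 : (MvPolynomial.aeval c : MvPolynomial ι k →ₐ[k] k[X]) ∘ MvPolynomial.X = c := by
      funext a; simp
    rw [h2] at this
    exact this.symm
  refine eq_zero_of_natDegree_lt_card_of_eval_eq_zero' _ T (fun τ hτ => ?_)
    (lt_of_le_of_lt ((natDegree_sub_le _ _).trans (max_le ?_ ?_)) hT)
  · have h1 := congrFun (C.res_map (aeval τ : k[X] →ₐ[k] k) (NN ι) c) i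
    have h2 := congrFun (single_map (i0 := i0) (aeval τ : k[X] →ₐ[k] k)) i
    have h3 : (aeval τ : k[X] →ₐ[k] k) ∘ c = fun i => (c i).eval τ := by
      funext i; simp [coe_aeval_eq_eval]
    rw [h3, show C.res (NN ι) (fun i => (c i).eval τ) = _ from h τ hτ, ← h2] at h1
    rw [eval_sub, sub_eq_zero, ← coe_aeval_eq_eval]
    exact h1
  · rw [e]
    exact MvPolynomial.aeval_natDegree_le _ (le_sup (f := fun i => (ρ i).totalDegree) (mem_univ i))
      _ hc
  · rw [Pi.single_apply]; split_ifs <;> simp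

/-- a curve in the orbit lifts to the group -/
theorem curve_lift (hg : IsGr w g) {D : ℕ} {c : ι → k[X]} (hO : C.Orb c)
    (hd : ∀ i, (c i).natDegree ≤ D) (h0 : (fun i => (c i).eval 0) = Pi.single i0 1) :
    ∃ Mc, Curve i0 g D Mc ∧ Mc *ᵥ Pi.single i0 1 = c := by
  have e : C.grp (NN ι) (C.Psi c) *ᵥ Pi.single i0 1 = c := C.phi_Psi hO
  refine ⟨C.grp (NN ι) (C.Psi c), ⟨C.grp_mem hg _ _, ?_, fun i => ?_⟩, e⟩
  · have h3 : (aeval (0 : k) : k[X] →ₐ[k] k) ∘ c = Pi.single i0 1 := by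
      rw [← h0]; funext i; simp [coe_aeval_eq_eval]
    rw [grp_map, Psi_map, h3, Psi_single, grp_zero]
  · have := congrFun e i
    simp only [mulVec_single_one, col_apply] at this
    rw [this]; exact hd i

theorem pres_of_terminal (hg : IsGr w g) {D : ℕ} {P : Set (ι → k)} (hO : ∀ p ∈ P, C.Orb p)
    {Mc : Matrix ι ι k[X]} (hM : Curve i0 g D Mc) (hT : C.II P ≤ C.II (stepSet Mc P)) (τ : k) :
    C.Pres (C.II P) (Mc.map (aeval τ)) := by
  intro x hx
  obtain ⟨z, hz, e⟩ := hM.exp hg τ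
  refine ⟨by rw [e]; exact hx.1.mul hg hz, fun f hf => ?_⟩
  let S := MvPolynomial C.κ k
  let f' : S := MvPolynomial.aeval
    (C.Psi ((Mc.map (aeval τ)).map (algebraMap k S) *ᵥ C.phi MvPolynomial.X)) f
  have key : ∀ y : ι → k, C.Orb y → MvPolynomial.aeval (C.Psi y) f' =
      MvPolynomial.aeval (C.Psi (Mc.map (aeval τ) *ᵥ y)) f := by
    intro y hy
    rw [C.aeval_Psi, mulVec_map, C.aeval_phi hy]
    congr 4
    ext i j
    exact (MvPolynomial.aeval (C.Psi y) : S →ₐ[k] k).commutes _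
  rw [← key x hx.1]
  exact hx.2 f' fun p hp => by rw [key p (hO p hp)]; exact hT hf _ ⟨τ, p, hp, rfl⟩

end Chart

theorem col_zero_of_exp {Y : Matrix ι ι k} (hY : Y ∈ (filt w k).F 0)
    (h : exp Y *ᵥ Pi.single i0 1 = Pi.single i0 1) (i : ι) : Y i i0 = 0 := by
  obtain ⟨u, ⟨u, rfl⟩, e⟩ := (filt w k).exp_sub_one_eq hY
  have h1 : (exp Y - 1) *ᵥ Pi.single i0 1 = 0 := by rw [sub_mulVec, h, one_mulVec, sub_self]
  have h2 : Y *ᵥ Pi.single i0 1 = 0 := by
    rw [← one_mul Y, ← u.inv_mul, mul_assoc, ← e, ← mulVec_mulVec, h1, mulVec_zero]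
  simpa using congrFun h2 i

/-- `g` is generated by the stabiliser and by the elements moving the base vector along `𝒞` -/
def Gen (i0 : ι) (g : Submodule k (Matrix ι ι k)) (𝒞 : Set (ι → k[X])) : Prop :=
  ∀ s : Submodule k (Matrix ι ι k), s ≤ g → (∀ x ∈ s, ∀ y ∈ s, x * y - y * x ∈ s) →
    (∀ y ∈ g, (∀ i, y i i0 = 0) → y ∈ s) →
    (∀ c ∈ 𝒞, ∀ τ : k, ∀ z ∈ g, exp z *ᵥ Pi.single i0 1 = (fun i => (c i).eval τ) → z ∈ s) → g ≤ s

theorem Chart.zero_estimate (C : Chart w i0 g) (hg : IsGr w g) {D : ℕ} {𝒞 : Set (ι → k[X])}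
    (hd : ∀ c ∈ 𝒞, ∀ i, (c i).natDegree ≤ D)
    (h0 : ∀ c ∈ 𝒞, (fun i => (c i).eval 0) = Pi.single i0 1) (hO : ∀ c ∈ 𝒞, C.Orb c)
    (hgen : Gen i0 g 𝒞)
    (hspan : ∀ l : ι → k, (∀ z ∈ g, l ⬝ᵥ (exp z *ᵥ Pi.single i0 1) = 0) → l = 0) :
    Fintype.card ι ≤ (Fintype.card C.κ * D + 1) ^ Fintype.card C.κ := by
  classical
  obtain ⟨P, hP0, hPO, hG, hT⟩ := C.exists_terminal hg D
  let s : Submodule k (Matrix ι ι k) :=
    { carrier := {x | C.InS (C.II P) x}
      add_mem' := fun ha hb => ha.add hg hb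
      zero_mem' := ⟨zero_mem _, fun σ => by simpa using Chart.Pres.one⟩
      smul_mem' := fun c _ h => h.smul c }
  have hH : ∀ y ∈ g, (∀ i, y i i0 = 0) → y ∈ s := by
    intro y hy h
    have hy' := Submodule.smul_mem _ (Polynomial.X : k[X]) (mem_gR (R := k[X]) hy)
    have ev : ∀ τ : k, (exp ((Polynomial.X : k[X]) • y.map (algebraMap k k[X]))).map (aeval τ) =
        exp (τ • y) := fun τ => by
      rw [Chart.exp_map' _ (hg.le0 hy'), map_smul_ev, map_C_ev, aeval_X]
    have hM : Curve i0 g D (exp ((Polynomial.X : k[X]) • y.map (algebraMap k k[X]))) := by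
      refine ⟨⟨_, hy', rfl⟩, by rw [ev]; simp, fun i => ?_⟩
      have := congrFun (Chart.exp_fix (i0 := i0) (hg.le0 hy') fun i => by simp [h i]) i
      simp only [mulVec_single_one, col_apply] at this
      rw [this, Pi.single_apply]; split_ifs <;> simp
    exact ⟨hy, fun σ => by rw [← ev]; exact C.pres_of_terminal hg hPO hM (hT _ hM) σ⟩
  have hs : g ≤ s := by
    refine hgen s (fun _ h => h.1) (fun _ hx _ hy => Chart.InS.br hg hx hy) hH ?_
    intro c hc τ z hz e
    obtain ⟨Mc, hM, eM⟩ := C.curve_lift hg (hO c hc) (hd c hc) (h0 c hc)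
    obtain ⟨z1, hz1, e1⟩ := hM.exp hg τ
    obtain ⟨y, hy, e2⟩ := hg.exp_mul (neg_mem hz1) (gR_self.2 hz)
    have hn := (filt w k).nil (hg.le0 hz1)
    have e3 : exp z1 *ᵥ Pi.single i0 1 = fun i => (c i).eval τ := by
      have := Chart.mulVec_map (aeval τ : k[X] →ₐ[k] k) Mc (Pi.single i0 1)
      rw [eM, Chart.single_map, e1] at this
      rw [← this]; funext i; simp [coe_aeval_eq_eval]
    have hy0 := col_zero_of_exp (i0 := i0) (hg.le0 hy) (by
      rw [← e2, ← mulVec_mulVec, e, ← e3, mulVec_mulVec, exp_neg_mul_exp_self hn, one_mulVec])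
    refine Chart.inS_of_pres hg hz ?_
    have e4 : exp z = exp z1 * exp y := by
      rw [← e2, ← mul_assoc, exp_mul_exp_neg_self hn, one_mul]
    rw [e4]
    refine Chart.Pres.mul ?_ (by simpa using (hH y (gR_self.1 hy) hy0).2 1)
    rw [← e1]; exact C.pres_of_terminal hg hPO hM (hT _ hM) τ
  let L := Fintype.card C.κ * D + 1
  let Φ : (ι → k) →ₗ[k] ((C.κ → Fin L) → k) :=
    { toFun := fun l m => MvPolynomial.coeff (Finsupp.equivFunOnFinite.symm fun a => (m a : ℕ))
        (C.form l)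
      map_add' := fun l l' => by
        funext m; simp [Chart.form, add_mul, sum_add_distrib]
      map_smul' := fun c l => by
        funext m
        simp [Chart.form, MvPolynomial.coeff_sum, mul_sum, mul_assoc] }
  have hinj : Function.Injective Φ := by
    rw [injective_iff_map_eq_zero]
    intro l hl
    have hOrd : Ord i0 g l L := C.ord_of_coeff hg fun m hm => by
      have := congrFun hl fun a => ⟨m a, hm a⟩
      simpa [Φ] using this
    have hf : C.form l ∈ C.II P := fun p hp => by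
      rw [C.aeval_form l (hPO p hp)]; exact hG l hOrd p hp
    refine hspan l fun z hz => ?_
    have h1 : Pi.single i0 1 ∈ C.Zs (C.II P) := ⟨(C.res_single _).1, fun f hf => hf _ hP0⟩
    have h2 := (hs hz).2 1 _ h1
    rw [one_smul] at h2
    have h3 := h2.2 _ hf
    rw [C.aeval_form l h2.1] at h3
    exact h3
  simpa using LinearMap.finrank_le_finrank_of_injective hinj

/-- the zero estimate: an orbit which spans and is generated by curves of degree at most `D` has
dimension `d` with `card ι ≤ (d D + 1) ^ d` -/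
theorem zero_estimate (hg : IsGr w g) {D : ℕ} {𝒞 : Set (ι → k[X])}
    (hd : ∀ c ∈ 𝒞, ∀ i, (c i).natDegree ≤ D)
    (h0 : ∀ c ∈ 𝒞, (fun i => (c i).eval 0) = Pi.single i0 1)
    (hO : ∀ c ∈ 𝒞, {τ : k | ∃ z ∈ g, exp z *ᵥ Pi.single i0 1 = fun i => (c i).eval τ}.Infinite)
    (hgen : Gen i0 g 𝒞)
    (hspan : ∀ l : ι → k, (∀ z ∈ g, l ⬝ᵥ (exp z *ᵥ Pi.single i0 1) = 0) → l = 0) :
    Fintype.card ι ≤ (Module.finrank k (g.map (colL i0)) * D + 1) ^
      Module.finrank k (g.map (colL i0)) := by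
  obtain ⟨C⟩ := exists_chart i0 hg
  have h := C.zero_estimate hg hd h0 (fun c hc => C.orb_of_infinite ((hO c hc).mono (by
    rintro τ ⟨z, hz, e⟩
    rw [Set.mem_ofPred_eq, ← e]; exact C.orb_exp hg (gR_self.2 hz)))) hgen hspan
  refine h.trans ((Nat.pow_le_pow_left ?_ _).trans (Nat.pow_le_pow_right (by omega) C.card_le))
  have := Nat.mul_le_mul_right D C.card_le
  omega

/-- the numerical contradiction -/
theorem choose_gt {n d D : ℕ} (hd : d < n) (hD : n.factorial * n ^ n ≤ D) :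
    (d * D + 1) ^ d < (D + n).choose n := by
  have hn : 0 < n := by omega
  have hD1 : 1 ≤ D := le_trans (Nat.mul_pos n.factorial_pos (by positivity)) hD
  have h1 : (D + 1) ^ n ≤ n.factorial * (D + n).choose n := by
    rw [← Nat.ascFactorial_eq_factorial_mul_choose]; exact Nat.pow_succ_le_ascFactorial _ _
  have h2 : (d * D + 1) ^ d ≤ (n * (D + 1)) ^ (n - 1) := by
    refine (Nat.pow_le_pow_left (?_ : _ ≤ n * (D + 1)) _).trans
      (Nat.pow_le_pow_right (by positivity) (by omega))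
    nlinarith
  refine lt_of_le_of_lt h2 (Nat.lt_of_mul_lt_mul_left (a := n.factorial) (lt_of_lt_of_le ?_ h1))
  obtain ⟨m, rfl⟩ : ∃ m, n = m + 1 := ⟨n - 1, by omega⟩
  rw [Nat.add_sub_cancel, mul_pow, ← mul_assoc, pow_succ' (D + 1)]
  refine Nat.mul_lt_mul_of_lt_of_le ?_ le_rfl (by positivity)
  have : (m + 1) ^ m ≤ (m + 1) ^ (m + 1) := Nat.pow_le_pow_right (by omega) (by omega)
  have := Nat.mul_le_mul_left (m + 1).factorial this
  omega

end H61Z
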