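import Pool.Agent.MP_5168f5_an.H61Z.Dexp

/-! The weight filtration on matrices and base change of a graded bracket closed subspace. -/

namespace H61Z
open IsNilpotent Finset Matrix

variable {ι : Type} [Fintype ι] [DecidableEq ι] (w : ι → ℝ)

open Classical in
/-- the number of positive weight differences below the one of `(i,j)` -/
noncomputable def rk (i j : ι) : ℕ :=
  (univ.filter fun ab : ι × ι => 0 < w ab.1 - w ab.2 ∧ w ab.1 - w ab.2 < w i - w j).card

theorem rk_lt {i j a b : ι} (h : w j < w i) (h' : w i - w j < w a - w b) : rk w i j < rk w a b := by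
  classical
  unfold rk
  apply card_lt_card
  refine ⟨fun x hx => ?_, fun hx => ?_⟩
  · simp only [mem_filter, mem_univ, true_and] at hx ⊢
    exact ⟨hx.1, hx.2.trans h'⟩
  · have := @hx (i, j) (by simp only [mem_filter, mem_univ, true_and]; exact ⟨by linarith, h'⟩)
    simp at this

theorem rk_eq {i j a b : ι} (h : w i - w j = w a - w b) : rk w i j = rk w a b := by
  unfold rk; rw [h]

theorem rk_inj {i j a b : ι} (h : w j < w i) (h' : w b < w a) (e : rk w i j = rk w a b) :
    w i - w j = w a - w b := by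
  rcases lt_trichotomy (w i - w j) (w a - w b) with h1 | h1 | h1
  · exact absurd e (rk_lt w h h1).ne
  · exact h1
  · exact absurd e (rk_lt w h' h1).ne'

theorem rk_le (i j : ι) : rk w i j ≤ Fintype.card (ι × ι) := by
  classical
  unfold rk; exact card_le_univ _

variable (R : Type*) [CommRing R] [Algebra ℚ R]

/-- matrices whose entries raise the weight by at least the `n`-th step -/
def FM (n : ℕ) : Submodule ℚ (Matrix ι ι R) where
  carrier := {M | ∀ i j, M i j ≠ 0 → w j < w i ∧ n ≤ rk w i j}
  add_mem' := fun {a b} ha hb i j h => by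
    by_cases h1 : a i j = 0
    · exact hb i j (by simpa [h1] using h)
    · exact ha i j h1
  zero_mem' := fun i j h => absurd rfl h
  smul_mem' := fun c M hM i j h => hM i j fun h0 => h (by simp [h0])

theorem mul_ne {x y : Matrix ι ι R} {i l : ι} (h : (x * y) i l ≠ 0) : ∃ j, x i j ≠ 0 ∧ y j l ≠ 0 := by
  by_contra hc
  push Not at hc
  apply h
  rw [mul_apply]
  refine sum_eq_zero fun j _ => ?_
  by_cases h1 : x i j = 0
  · rw [h1, zero_mul]
  · rw [hc j h1, mul_zero]

/-- the weight filtration -/
noncomputable def filt : Filt (Matrix ι ι R) where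
  F := FM w R
  N := Fintype.card (ι × ι) + 1
  anti n := fun M hM i j h => ⟨(hM i j h).1, (Nat.le_succ n).trans (hM i j h).2⟩
  mul_l n x y hx hy := fun i l h => by
    obtain ⟨j, h1, h2⟩ := mul_ne R h
    have a := hx i j h1
    have b := hy j l h2
    exact ⟨b.1.trans a.1, lt_of_le_of_lt b.2 (rk_lt w b.1 (by linarith [a.1]))⟩
  mul_r n x y hx hy := fun i l h => by
    obtain ⟨j, h1, h2⟩ := mul_ne R h
    have a := hx i j h1
    have b := hy j l h2
    exact ⟨b.1.trans a.1, lt_of_le_of_lt a.2 (rk_lt w a.1 (by linarith [b.1]))⟩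
  bot x hx := by
    ext i j
    by_contra h
    have := (hx i j h).2
    have := rk_le w i j
    omega

variable {R}

theorem mem_F {n : ℕ} {M : Matrix ι ι R} :
    M ∈ (filt w R).F n ↔ ∀ i j, M i j ≠ 0 → w j < w i ∧ n ≤ rk w i j := Iff.rfl

theorem F_smul {n : ℕ} {M : Matrix ι ι R} (c : R) (h : M ∈ (filt w R).F n) :
    c • M ∈ (filt w R).F n := fun i j h1 => h i j fun h0 => h1 (by simp [h0])

theorem F_map {R' : Type*} [CommRing R'] [Algebra ℚ R'] (f : R →+* R') {n : ℕ} {M : Matrix ι ι R}
    (h : M ∈ (filt w R).F n) : M.map f ∈ (filt w R').F n :=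
  fun i j h1 => h i j fun h0 => h1 (by simp [h0])

theorem exp_map {R' : Type*} [CommRing R'] [Algebra ℚ R'] (f : R →+* R') {M : Matrix ι ι R}
    (h : M ∈ (filt w R).F 0) : (exp M).map f = exp (M.map f) :=
  map_exp ((filt w R).nil h) f.mapMatrix

open Classical in
/-- the homogeneous part of step `n` -/
noncomputable def part (n : ℕ) (M : Matrix ι ι R) : Matrix ι ι R :=
  Matrix.of fun i j => if w j < w i ∧ rk w i j = n then M i j else 0

theorem part_apply (n : ℕ) (M : Matrix ι ι R) {i j : ι} (h : w j < w i ∧ rk w i j = n) :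
    part w n M i j = M i j := by simp [part, h]

theorem part_apply' (n : ℕ) (M : Matrix ι ι R) {i j : ι} (h : ¬(w j < w i ∧ rk w i j = n)) :
    part w n M i j = 0 := by simp only [part, of_apply, if_neg h]

theorem part_mem (n : ℕ) (M : Matrix ι ι R) : part w n M ∈ (filt w R).F n := fun i j h => by
  by_cases h1 : w j < w i ∧ rk w i j = n
  · exact ⟨h1.1, h1.2.ge⟩
  · exact absurd (part_apply' w n M h1) h

theorem sub_part_mem {n : ℕ} {M : Matrix ι ι R} (h : M ∈ (filt w R).F n) :
    M - part w n M ∈ (filt w R).F (n + 1) := fun i j h1 => by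
  by_cases h2 : w j < w i ∧ rk w i j = n
  · exact absurd (by rw [Matrix.sub_apply, part_apply w n M h2, sub_self]) h1
  · rw [Matrix.sub_apply, part_apply' w n M h2, sub_zero] at h1
    have := h i j h1
    refine ⟨this.1, lt_of_le_of_ne this.2 fun e => h2 ⟨this.1, e.symm⟩⟩

theorem part_add (n : ℕ) (M M' : Matrix ι ι R) : part w n (M + M') = part w n M + part w n M' := by
  ext i j; simp only [part, of_apply, Matrix.add_apply]; split_ifs <;> simp

theorem part_smul (n : ℕ) (c : R) (M : Matrix ι ι R) : part w n (c • M) = c • part w n M := by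
  ext i j; simp only [part, of_apply, Matrix.smul_apply]; split_ifs <;> simp

variable {k : Type*} [Field k] [CharZero k]

/-- a graded bracket closed space of weight raising matrices -/
structure IsGr (g : Submodule k (Matrix ι ι k)) : Prop where
  br : ∀ x ∈ g, ∀ y ∈ g, x * y - y * x ∈ g
  nil : ∀ x ∈ g, ∀ i j, x i j ≠ 0 → w j < w i
  gr : ∀ x ∈ g, ∀ r : ℝ, (Matrix.of fun i j => if w i - w j = r then x i j else 0) ∈ g

variable {w}

theorem IsGr.part {g : Submodule k (Matrix ι ι k)} (hg : IsGr w g) (n : ℕ) {x : Matrix ι ι k}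
    (hx : x ∈ g) : part w n x ∈ g := by
  by_cases h : ∃ a b, w b < w a ∧ rk w a b = n
  · obtain ⟨a, b, h1, h2⟩ := h
    have := hg.gr x hx (w a - w b)
    convert this using 1
    ext i j
    rw [of_apply]
    by_cases h3 : w j < w i ∧ rk w i j = n
    · rw [part_apply w n x h3, if_pos (rk_inj w h3.1 h1 (h3.2.trans h2.symm))]
    · rw [part_apply' w n x h3, if_neg]
      intro e
      exact h3 ⟨by linarith, (rk_eq w e).trans h2⟩
  · have : H61Z.part w n x = 0 := by
      ext i j; exact part_apply' w n x fun h3 => h ⟨i, j, h3⟩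
    rw [this]; exact zero_mem _

variable (g : Submodule k (Matrix ι ι k)) (R) [Algebra k R]

/-- base change -/
def gR : Submodule R (Matrix ι ι R) :=
  Submodule.span R ((fun X : Matrix ι ι k => X.map (algebraMap k R)) '' g)

variable {g R}

theorem mem_gR {x : Matrix ι ι k} (hx : x ∈ g) : x.map (algebraMap k R) ∈ gR R g :=
  Submodule.subset_span ⟨x, hx, rfl⟩

theorem gR_ind {p : Matrix ι ι R → Prop} (h0 : p 0) (hadd : ∀ x y, p x → p y → p (x + y))
    (hs : ∀ (c : R) x, p x → p (c • x)) (hm : ∀ x ∈ g, p (x.map (algebraMap k R)))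
    {M : Matrix ι ι R} (hM : M ∈ gR R g) : p M := by
  induction hM using Submodule.span_induction with
  | mem x hx => obtain ⟨y, hy, rfl⟩ := hx; exact hm y hy
  | zero => exact h0
  | add x y _ _ hx hy => exact hadd x y hx hy
  | smul c x _ hx => exact hs c x hx

theorem gR_self {x : Matrix ι ι k} : x ∈ gR k g ↔ x ∈ g := by
  refine ⟨fun h => gR_ind (zero_mem _) (fun _ _ => add_mem) (fun c _ h => g.smul_mem c h)
    (fun y hy => by simpa using hy) h, fun h => by simpa using mem_gR (R := k) h⟩

theorem gR_map {R' : Type*} [CommRing R'] [Algebra ℚ R'] [Algebra k R'] (f : R →ₐ[k] R') {M : Matrix ι ι R}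
    (hM : M ∈ gR R g) : M.map f ∈ gR R' g := by
  refine gR_ind (p := fun M => M.map f ∈ gR R' g) (by simp) ?_ ?_ ?_ hM
  · intro x y hx hy
    rw [Matrix.map_add _ (map_add f)]; exact add_mem hx hy
  · intro c x hx
    have : (c • x).map f = f c • x.map f := by ext i j; simp
    rw [this]; exact Submodule.smul_mem _ _ hx
  · intro x hx
    have : (x.map (algebraMap k R)).map f = x.map (algebraMap k R') := by ext i j; simp
    rw [this]; exact mem_gR hx

theorem IsGr.le0 (hg : IsGr w g) {M : Matrix ι ι R} (hM : M ∈ gR R g) : M ∈ (filt w R).F 0 :=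
  gR_ind (p := fun M => M ∈ (filt w R).F 0) (zero_mem _) (fun _ _ => add_mem)
    (fun c _ h => F_smul w c h)
    (fun x hx => F_map w _ (fun i j h => ⟨hg.nil x hx i j h, Nat.zero_le _⟩)) hM

theorem IsGr.partR (hg : IsGr w g) (n : ℕ) {M : Matrix ι ι R} (hM : M ∈ gR R g) :
    H61Z.part w n M ∈ gR R g := by
  refine gR_ind (p := fun M => H61Z.part w n M ∈ gR R g) ?_ ?_ ?_ ?_ hM
  · have : H61Z.part w n (0 : Matrix ι ι R) = 0 := by ext i j; simp [H61Z.part]
    rw [this]; exact zero_mem _
  · intro x y hx hy; rw [part_add]; exact add_mem hx hy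
  · intro c x hx; rw [part_smul]; exact Submodule.smul_mem _ _ hx
  · intro x hx
    have : H61Z.part w n (x.map (algebraMap k R)) = (H61Z.part w n x).map (algebraMap k R) := by
      ext i j; simp only [H61Z.part, of_apply, map_apply]; split_ifs <;> simp
    rw [this]; exact mem_gR (hg.part n hx)

theorem IsGr.brR (hg : IsGr w g) {M M' : Matrix ι ι R} (hM : M ∈ gR R g) (hM' : M' ∈ gR R g) :
    M * M' - M' * M ∈ gR R g := by
  refine gR_ind (p := fun M => M * M' - M' * M ∈ gR R g) (by simp) ?_ ?_ ?_ hM
  · intro x y hx hy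
    have : (x + y) * M' - M' * (x + y) = (x * M' - M' * x) + (y * M' - M' * y) := by noncomm_ring
    rw [this]; exact add_mem hx hy
  · intro c x hx
    rw [smul_mul_assoc, mul_smul_comm, ← smul_sub]; exact Submodule.smul_mem _ _ hx
  · intro x hx
    refine gR_ind (p := fun M' => x.map (algebraMap k R) * M' - M' * x.map (algebraMap k R) ∈ gR R g)
      (by simp) ?_ ?_ ?_ hM'
    · intro a b ha hb
      have : x.map (algebraMap k R) * (a + b) - (a + b) * x.map (algebraMap k R) =
          (x.map (algebraMap k R) * a - a * x.map (algebraMap k R)) +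
            (x.map (algebraMap k R) * b - b * x.map (algebraMap k R)) := by noncomm_ring
      rw [this]; exact add_mem ha hb
    · intro c a ha
      rw [smul_mul_assoc, mul_smul_comm, ← smul_sub]; exact Submodule.smul_mem _ _ ha
    · intro y hy
      rw [← Matrix.map_mul, ← Matrix.map_mul, ← Matrix.map_sub _ (map_sub _)]
      exact mem_gR (hg.br x hx y hy)

theorem IsGr.exp_mul (hg : IsGr w g) {x y : Matrix ι ι R} (hx : x ∈ gR R g) (hy : y ∈ gR R g) :
    ∃ z ∈ gR R g, exp x * exp y = exp z :=
  (filt w R).exp_mul (g := (gR R g).restrictScalars ℚ) (fun _ h => hg.le0 h)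
    (fun _ h _ h' => hg.brR h h') hx hy

end H61Z
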