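import Pool.Agent.MP_5168f5_an.H61Z.Chart

/-! Orders of vanishing of linear forms on the orbit, and the drop along one curve. -/

namespace H61Z
open IsNilpotent Finset Matrix Polynomial

universe u
variable {ι : Type} [Fintype ι] [DecidableEq ι] {k : Type u} [Field k] [CharZero k]

section J
variable {R : Type*} [CommRing R] (a : Ideal R)

theorem J_mul {m n : ℕ} {P Q : R[X]} (hP : ∀ i, P.coeff i ∈ a ^ (m - i))
    (hQ : ∀ i, Q.coeff i ∈ a ^ (n - i)) (i : ℕ) : (P * Q).coeff i ∈ a ^ (m + n - i) := by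
  rw [coeff_mul]
  refine Ideal.sum_mem _ fun c hc => ?_
  have e := mem_antidiagonal.1 hc
  have := Ideal.mul_mem_mul (hP c.1) (hQ c.2)
  rw [← pow_add] at this
  exact Ideal.pow_le_pow_right (by omega) this

/-- polynomials of order at least `n` -/
def J (n : ℕ) : Ideal R[X] where
  carrier := {P | ∀ i, P.coeff i ∈ a ^ (n - i)}
  add_mem' := fun ha hb i => by rw [coeff_add]; exact add_mem (ha i) (hb i)
  zero_mem' := fun i => by simp
  smul_mem' := fun c P h i => by
    have := J_mul a (m := 0) (P := c) (fun i => by simp) h i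
    simpa using this

theorem J_pow (n : ℕ) : J a 1 ^ n ≤ J a n := by
  induction n with
  | zero => intro P _ i; simp
  | succ n ih =>
    rw [_root_.pow_succ]
    exact Ideal.mul_le.2 fun P hP Q hQ => J_mul a (ih hP) hQ

theorem mem_J_one {P : R[X]} (h : P.coeff 0 ∈ a) : P ∈ J a 1 := fun i => by
  cases i with
  | zero => simpa using h
  | succ i => simp
end J

variable {w : ι → ℝ} (i0 : ι) (g : Submodule k (Matrix ι ι k))

/-- group elements congruent to one -/
def Fam {R : Type u} [CommRing R] [Algebra ℚ R] [Algebra k R] (a : Ideal R) (M : Matrix ι ι R) :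
    Prop := (∃ z ∈ gR R g, M = exp z) ∧ ∀ i j, (M - 1) i j ∈ a

/-- the form `l` vanishes to order `L` at the base point -/
def Ord (l : ι → k) (L : ℕ) : Prop :=
  ∀ (R : Type u) [CommRing R] [Algebra ℚ R] [Algebra k R] (a : Ideal R) (M : Matrix ι ι R),
    Fam g a M → ∑ i, algebraMap k R (l i) * M i i0 ∈ a ^ L

/-- one parameter families through the identity moving the base point along a curve of degree
at most `D` -/
def Curve (D : ℕ) (M : Matrix ι ι k[X]) : Prop :=
  (∃ z ∈ gR k[X] g, M = exp z) ∧ M.map (aeval (0 : k)) = 1 ∧ ∀ i, (M i i0).natDegree ≤ D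

variable {i0 g}

theorem Ord.mono {l : ι → k} {L L' : ℕ} (h : Ord i0 g l L) (hL : L' ≤ L) : Ord i0 g l L' :=
  fun R _ _ _ a M hM => Ideal.pow_le_pow_right hL (h R a M hM)

theorem Ord.base {l : ι → k} {L : ℕ} (h : Ord i0 g l (L + 1)) : l i0 = 0 := by
  have := h k ⊥ 1 ⟨⟨0, zero_mem _, by simp⟩, by simp⟩
  simpa [one_apply] using this

theorem mul_mem_ent {R : Type*} [CommRing R] {a : Ideal R} {M : Matrix ι ι R}
    (h : ∀ i j, M i j ∈ a) (u v : Matrix ι ι R) (i j : ι) : (u * M * v) i j ∈ a := by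
  simp only [Matrix.mul_apply]
  exact Ideal.sum_mem _ fun _ _ => Ideal.mul_mem_right _ _
    (Ideal.sum_mem _ fun _ _ => Ideal.mul_mem_left _ _ (h _ _))

theorem Ord.step (hg : IsGr w g) {D L : ℕ} {l : ι → k} (h : Ord i0 g l (L + D))
    {Mc : Matrix ι ι k[X]} (hM : Curve i0 g D Mc) (τ : k) :
    Ord i0 g (l ᵥ* Mc.map (aeval τ)) L := by
  intro R _ _ _ a M ⟨⟨z, hz, eM⟩, hM1⟩
  obtain ⟨⟨y, hy, ey⟩, h0, hdeg⟩ := hM
  let ev : k[X] →ₐ[k] R := aeval (algebraMap k R τ)
  let up : k[X] →ₐ[k] R[X] := mapAlgHom (Algebra.ofId k R)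
  let cc : R →ₐ[k] R[X] := IsScalarTower.toAlgHom k R R[X]
  have hy0 := gR_map ev hy
  have hn := (filt w R).nil (hg.le0 hy0)
  set u := exp (y.map ev) with hu
  set v := exp (-y.map ev) with hv
  have huv : u * v = 1 := exp_mul_exp_neg_self hn
  have hvu : v * u = 1 := exp_neg_mul_exp_self hn
  obtain ⟨z1, hz1, e1⟩ := hg.exp_mul hy0 hz
  obtain ⟨z2, hz2, e2⟩ := hg.exp_mul hz1 (neg_mem hy0)
  have eM' : u * M * v = exp z2 := by rw [eM, hu, e1, hv, e2]
  have hM' : ∀ i j, (u * M * v - 1) i j ∈ a := by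
    intro i j
    have : u * M * v - 1 = u * (M - 1) * v := by rw [mul_sub, sub_mul, mul_one, huv]
    rw [this]; exact mul_mem_ent hM1 _ _ _ _
  obtain ⟨z3, hz3, e3⟩ := hg.exp_mul (gR_map cc hz2) (gR_map up hy)
  have hF : Fam g (J a 1) ((u * M * v).map cc * Mc.map up) := by
    refine ⟨⟨z3, hz3, ?_⟩, fun i j => mem_J_one a ?_⟩
    · rw [← e3, eM', ey, Chart.exp_map' cc (hg.le0 hz2), Chart.exp_map' up (hg.le0 hy)]
    · have h1 : ∀ i j, (Mc i j).coeff 0 = (1 : Matrix ι ι k) i j := fun i j => by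
        rw [← h0, map_apply, coeff_zero_eq_aeval_zero]
      have h2 := hM' i j
      have h3 : (((u * M * v).map cc * Mc.map up) i j).coeff 0 = (u * M * v) i j := by
        generalize u * M * v = N
        rw [Matrix.mul_apply, finsetSum_coeff]
        have : ∀ x, ((N.map cc) i x * (Mc.map up) x j).coeff 0 =
            N i x * algebraMap k R ((1 : Matrix ι ι k) x j) := fun x => by
          rw [← h1]; simp [cc, up]
        rw [sum_congr rfl fun x _ => this x, sum_eq_single j] <;> simp +contextual [one_apply]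
      rw [Matrix.sub_apply, coeff_sub, h3]
      rw [Matrix.sub_apply] at h2
      convert h2 using 2
      simp only [one_apply]; split_ifs <;> simp
  have hP := J_pow a _ (h R[X] _ _ hF)
  set P := ∑ i, algebraMap k R[X] (l i) * ((u * M * v).map cc * Mc.map up) i i0 with hPd
  have hdP : P.natDegree < D + 1 := by
    refine Nat.lt_succ_of_le (natDegree_sum_le_of_forall_le _ _ fun i _ => ?_)
    rw [Polynomial.algebraMap_apply]
    refine (natDegree_C_mul_le _ _).trans ?_
    rw [Matrix.mul_apply]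
    refine natDegree_sum_le_of_forall_le _ _ fun j _ => ?_
    refine (natDegree_C_mul_le _ _).trans (natDegree_map_le.trans (hdeg j))
  have hev : P.eval (algebraMap k R τ) ∈ a ^ L := by
    rw [eval_eq_sum_range' hdP]
    refine Ideal.sum_mem _ fun i hi => Ideal.mul_mem_right _ _ ?_
    exact Ideal.pow_le_pow_right (by have := mem_range.1 hi; omega) (hP i)
  have eu : u = Mc.map ev := by rw [hu, ey, Chart.exp_map' ev (hg.le0 hy)]
  have e5 : P.eval (algebraMap k R τ) = ∑ i, algebraMap k R (l i) * (u * M * v * u) i i0 := by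
    rw [hPd, eval_finsetSum]
    refine sum_congr rfl fun i _ => ?_
    rw [Polynomial.algebraMap_apply, eval_C_mul, Matrix.mul_apply, Matrix.mul_apply,
      eval_finsetSum]
    congr 1
    refine sum_congr rfl fun j _ => ?_
    rw [eval_mul]
    congr 1
    · simp [cc]
    · rw [eu]; simp [up, ev, eval_map, aeval_def]
  rw [e5, mul_assoc, hvu, mul_one] at hev
  convert hev using 1
  simp only [vecMul, dotProduct, map_sum, map_mul, sum_mul, Matrix.mul_apply, mul_sum, eu, map_apply]
  rw [sum_comm]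
  refine sum_congr rfl fun i _ => sum_congr rfl fun j _ => ?_
  rw [mul_assoc]
  congr 2
  simp [ev, aeval_algebraMap_apply]

namespace Chart
variable (C : Chart w i0 g)

/-- a linear form read in the chart -/
noncomputable def form (l : ι → k) : MvPolynomial C.κ k :=
  ∑ i, MvPolynomial.C (l i) * C.phi MvPolynomial.X i

theorem aeval_form {R : Type*} [CommRing R] [Algebra ℚ R] [Algebra k R] (l : ι → k) {p : ι → R}
    (hp : C.Orb p) : MvPolynomial.aeval (C.Psi p) (C.form l) = ∑ i, algebraMap k R (l i) * p i := by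
  have h1 := C.phi_map (MvPolynomial.aeval (C.Psi p)) MvPolynomial.X
  have h2 : (MvPolynomial.aeval (C.Psi p) : MvPolynomial C.κ k →ₐ[k] R) ∘ MvPolynomial.X =
      C.Psi p := by funext a; simp
  rw [h2, C.phi_Psi hp] at h1
  rw [form, map_sum]
  refine sum_congr rfl fun i _ => ?_
  rw [map_mul, MvPolynomial.aeval_C]
  exact congrArg _ (congrFun h1 i)

theorem ord_of_coeff (hg : IsGr w g) {l : ι → k} {L : ℕ}
    (h : ∀ m : C.κ →₀ ℕ, (∀ a, m a < L) → MvPolynomial.coeff m (C.form l) = 0) :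
    Ord i0 g l L := by
  intro R _ _ _ a M ⟨⟨z, hz, eM⟩, hM1⟩
  have hp : C.Orb (M *ᵥ Pi.single i0 1) := by rw [eM]; exact C.orb_exp hg hz
  have hΨ : ∀ b, C.Psi (M *ᵥ Pi.single i0 1) b ∈ a := by
    intro b
    have h1 := C.Psi_map (Ideal.Quotient.mkₐ k a) (M *ᵥ Pi.single i0 1)
    have h2 : M.map (Ideal.Quotient.mkₐ k a) = 1 := by
      ext i j
      have := Ideal.Quotient.eq.2 (hM1 i j)
      rw [map_apply, Ideal.Quotient.mkₐ_eq_mk, this]
      simp only [one_apply]; split_ifs <;> simp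
    rw [mulVec_map, h2, single_map, one_mulVec, Psi_single] at h1
    exact Ideal.Quotient.eq_zero_iff_mem.1 (congrFun h1 b)
  have h3 := C.aeval_form l hp
  simp only [mulVec_single_one, col_apply] at h3 hΨ
  rw [← h3, (C.form l).as_sum, map_sum]
  refine Ideal.sum_mem _ fun m hm => ?_
  have : ∃ b, L ≤ m b := by
    by_contra hc
    push Not at hc
    exact MvPolynomial.mem_support_iff.1 hm (h m hc)
  obtain ⟨b, hb⟩ := this
  classical
  rw [MvPolynomial.aeval_monomial, Finsupp.prod_fintype _ _ (by simp),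
    ← mul_prod_erase univ _ (mem_univ b)]
  exact Ideal.mul_mem_left _ _ (Ideal.mul_mem_right _ _
    (Ideal.pow_le_pow_right hb (Ideal.pow_mem_pow (hΨ b) _)))

end Chart
end H61Z
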