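import Pool.Agent.MP_5168f5_an.H61Z.Ord

/-! Chains of curves: a chain of primes in the chart ring stops after `card κ` steps. -/

namespace H61Z
open IsNilpotent Finset Matrix Polynomial

universe u
variable {ι : Type} [Fintype ι] [DecidableEq ι] {k : Type u} [Field k] [CharZero k]
variable {w : ι → ℝ} {i0 : ι} {g : Submodule k (Matrix ι ι k)}

namespace Chart
variable (C : Chart w i0 g)

/-- the ideal of a set of points, in chart coordinates -/
def II (P : Set (ι → k)) : Ideal (MvPolynomial C.κ k) where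
  carrier := {f | ∀ p ∈ P, MvPolynomial.aeval (C.Psi p) f = 0}
  add_mem' := fun ha hb p hp => by rw [map_add, ha p hp, hb p hp, add_zero]
  zero_mem' := fun p _ => map_zero _
  smul_mem' := fun c f h p hp => by rw [smul_eq_mul, map_mul, h p hp, mul_zero]

theorem mem_II {P : Set (ι → k)} {f : MvPolynomial C.κ k} :
    f ∈ C.II P ↔ ∀ p ∈ P, MvPolynomial.aeval (C.Psi p) f = 0 := Iff.rfl

theorem aeval_Psi {R R' : Type*} [CommRing R] [Algebra ℚ R] [Algebra k R] [CommRing R']
    [Algebra ℚ R'] [Algebra k R'] (φ : R →ₐ[k] R') (p : ι → R) (f : MvPolynomial C.κ k) :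
    φ (MvPolynomial.aeval (C.Psi p) f) = MvPolynomial.aeval (C.Psi (φ ∘ p)) f := by
  rw [← C.Psi_map, ← AlgHom.comp_apply, MvPolynomial.comp_aeval]; rfl

theorem aeval_phi {p : ι → k} (hp : C.Orb p) :
    (MvPolynomial.aeval (C.Psi p) : MvPolynomial C.κ k →ₐ[k] k) ∘ C.phi MvPolynomial.X = p := by
  have h2 : (MvPolynomial.aeval (C.Psi p) : MvPolynomial C.κ k →ₐ[k] k) ∘ MvPolynomial.X =
      C.Psi p := by funext a; simp
  rw [C.phi_map, h2, C.phi_Psi hp]

end Chart

/-- one more curve, on the left -/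
def stepSet (Mc : Matrix ι ι k[X]) (P : Set (ι → k)) : Set (ι → k) :=
  {q | ∃ τ : k, ∃ p ∈ P, q = Mc.map (aeval τ) *ᵥ p}

theorem Curve.sub {D : ℕ} {Mc : Matrix ι ι k[X]} (hM : Curve i0 g D Mc) (P : Set (ι → k)) :
    P ⊆ stepSet Mc P := fun p hp => ⟨0, p, hp, by rw [hM.2.1, one_mulVec]⟩

theorem Curve.exp (hg : IsGr w g) {D : ℕ} {Mc : Matrix ι ι k[X]} (hM : Curve i0 g D Mc) (τ : k) :
    ∃ z ∈ gR k g, Mc.map (aeval τ) = exp z := by
  obtain ⟨y, hy, e⟩ := hM.1
  exact ⟨_, gR_map (aeval τ) hy, by rw [e, Chart.exp_map' _ (hg.le0 hy)]⟩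

namespace Chart
variable (C : Chart w i0 g)

theorem prime_step {Mc : Matrix ι ι k[X]} {P : Set (ι → k)} (hP : ∀ p ∈ P, C.Orb p)
    (h : (C.II P).IsPrime) : (C.II (stepSet Mc P)).IsPrime := by
  let S := MvPolynomial C.κ k
  let up : k[X] →ₐ[k] S[X] := mapAlgHom (Algebra.ofId k S)
  let cc : S →ₐ[k] S[X] := IsScalarTower.toAlgHom k S S[X]
  let θ : S →ₐ[k] S[X] :=
    MvPolynomial.aeval (C.Psi (Mc.map up *ᵥ (cc ∘ C.phi MvPolynomial.X)))
  have key : ∀ (f : S) (τ : k), ∀ p ∈ P,
      eval τ ((θ f).map (MvPolynomial.aeval (C.Psi p) : S →ₐ[k] k)) =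
        MvPolynomial.aeval (C.Psi (Mc.map (aeval τ) *ᵥ p)) f := by
    intro f τ p hp
    let E : S[X] →ₐ[k] k := (aeval τ).comp (mapAlgHom (MvPolynomial.aeval (C.Psi p)))
    have h1 := C.aeval_Psi E (Mc.map up *ᵥ (cc ∘ C.phi MvPolynomial.X)) f
    have h2 : (Mc.map up).map E = Mc.map (aeval τ) := by
      ext i j
      have : E.comp up = aeval τ := by ext; simp [E, up]
      exact DFunLike.congr_fun this _
    have h3 : E ∘ cc ∘ C.phi MvPolynomial.X = p := by
      funext i
      rw [← congrFun (C.aeval_phi (hP p hp)) i]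
      have : ∀ s : S, E (cc s) = MvPolynomial.aeval (C.Psi p) s := fun s => by
        change aeval τ (Polynomial.map _ (Polynomial.C s)) = _
        rw [map_C, aeval_C]; rfl
      exact this _
    rw [mulVec_map, h2, h3] at h1
    rw [← h1]; simp [E, θ, coe_aeval_eq_eval]
  have e : C.II (stepSet Mc P) = Ideal.comap θ (Ideal.map Polynomial.C (C.II P)) := by
    ext f
    rw [Ideal.mem_comap, Ideal.mem_map_C_iff]
    constructor
    · intro hf n p hp
      have : (θ f).map ((MvPolynomial.aeval (C.Psi p) : S →ₐ[k] k) : S →+* k) = 0 :=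
        Polynomial.funext fun τ => by rw [key f τ p hp, eval_zero]; exact hf _ ⟨τ, p, hp, rfl⟩
      have := congrArg (fun q => q.coeff n) this
      simp only [coeff_map, coeff_zero] at this
      exact this
    · rintro hf _ ⟨τ, p, hp, rfl⟩
      rw [← key f τ p hp]
      have : (θ f).map ((MvPolynomial.aeval (C.Psi p) : S →ₐ[k] k) : S →+* k) = 0 := by
        ext n; rw [coeff_map, coeff_zero]; exact hf n p hp
      rw [this, eval_zero]
  rw [e]
  exact Ideal.comap_isPrime _ _

/-- forms of high order vanish on `P` -/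
def Good (i0 : ι) (g : Submodule k (Matrix ι ι k)) (L : ℕ) (P : Set (ι → k)) : Prop :=
  ∀ l : ι → k, Ord i0 g l (L + 1) → ∀ p ∈ P, l ⬝ᵥ p = 0

theorem exists_terminal (hg : IsGr w g) (D : ℕ) : ∃ P : Set (ι → k), Pi.single i0 1 ∈ P ∧
    (∀ p ∈ P, C.Orb p) ∧ Good i0 g (Fintype.card C.κ * D) P ∧
    ∀ Mc, Curve i0 g D Mc → C.II P ≤ C.II (stepSet Mc P) := by
  by_contra hc
  have key : ∀ T, T ≤ Fintype.card C.κ + 1 → ∃ P : Set (ι → k), Pi.single i0 1 ∈ P ∧
      (∀ p ∈ P, C.Orb p) ∧ Good i0 g (T * D) P ∧ ∃ h : (C.II P).IsPrime,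
      (T : ℕ∞) ≤ Order.coheight (⟨C.II P, h⟩ : PrimeSpectrum (MvPolynomial C.κ k)) := by
    intro T
    induction T with
    | zero =>
      intro _
      refine ⟨{Pi.single i0 1}, rfl, ?_, ?_, ?_, by simp⟩
      · rintro _ rfl; exact (C.res_single _).1
      · rintro l hl _ rfl; simpa using hl.base
      · have : C.II {Pi.single i0 1} = RingHom.ker
            (MvPolynomial.aeval (C.Psi (Pi.single i0 (1 : k))) : MvPolynomial C.κ k →ₐ[k] k) := by
          ext f; simp [mem_II, RingHom.mem_ker]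
        rw [this]; exact RingHom.ker_isPrime _
    | succ T ih =>
      intro hT
      obtain ⟨P, h0, hO, hG, hp, hh⟩ := ih (by omega)
      have : ∃ Mc, Curve i0 g D Mc ∧ ¬C.II P ≤ C.II (stepSet Mc P) := by
        by_contra h2
        push Not at h2
        exact hc ⟨P, h0, hO, fun l hl => hG l (hl.mono (by
          have : T * D ≤ Fintype.card C.κ * D := Nat.mul_le_mul_right _ (by omega)
          omega)), h2⟩
      obtain ⟨Mc, hM, hn⟩ := this
      refine ⟨stepSet Mc P, hM.sub P h0, ?_, ?_, C.prime_step hO hp, ?_⟩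
      · rintro _ ⟨τ, p, hp, rfl⟩
        obtain ⟨z, hz, e⟩ := hM.exp hg τ
        rw [e]; exact (hO p hp).mul hg hz
      · rintro l hl _ ⟨τ, p, hp, rfl⟩
        rw [dotProduct_mulVec]
        refine hG _ (Ord.step hg (D := D) ?_ hM τ) p hp
        convert hl using 1; ring
      · have hlt : (⟨_, C.prime_step hO hp⟩ : PrimeSpectrum (MvPolynomial C.κ k)) <
            ⟨C.II P, hp⟩ := lt_of_le_not_ge (fun f hf p hp => hf p (hM.sub P hp)) hn
        refine le_trans ?_ (Order.coheight_add_one_le hlt)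
        push_cast
        gcongr
  obtain ⟨P, -, -, -, hp, hh⟩ := key _ le_rfl
  have h1 := Order.coheight_le_krullDim (⟨C.II P, hp⟩ : PrimeSpectrum (MvPolynomial C.κ k))
  have h2 : Order.krullDim (PrimeSpectrum (MvPolynomial C.κ k)) = Fintype.card C.κ := by
    have := MvPolynomial.ringKrullDim_of_isNoetherianRing (R := k) (ι := C.κ)
    rw [ringKrullDim_eq_zero_of_field, zero_add, Nat.card_eq_fintype_card] at this
    exact this
  rw [h2] at h1
  have h3 := (WithBot.coe_le_coe.2 hh).trans h1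
  norm_cast at h3
  omega

end Chart
end H61Z
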