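import Pool.Agent.MP_5168f5_an.H61Z.Prime

/-! The elements of `g` whose one parameter groups preserve a zero set form a subalgebra. -/

namespace H61Z
open IsNilpotent Finset Matrix Polynomial

universe u
variable {ι : Type} [Fintype ι] [DecidableEq ι] {k : Type u} [Field k] [CharZero k]
variable {w : ι → ℝ} {i0 : ι} {g : Submodule k (Matrix ι ι k)}

theorem exp_X_smul (w : ι → ℝ) {A : Matrix ι ι k[X]} (hA : A ∈ (filt w k[X]).F 0) :
    ∃ W : Matrix ι ι k[X], exp ((X : k[X]) • A) = 1 + (X : k[X]) • A + (X ^ 2 : k[X]) • W := by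
  refine ⟨∑ i ∈ range (filt w k[X]).N, (((i + 2).factorial : ℚ))⁻¹ • ((X : k[X]) ^ i • A ^ (i + 2)),
    ?_⟩
  rw [(filt w k[X]).exp_split (F_smul w _ hA), smul_sum]
  congr 1
  refine sum_congr rfl fun i _ => ?_
  rw [_root_.smul_pow, smul_comm (X ^ 2 : k[X]), smul_smul (X ^ 2 : k[X]), ← pow_add, add_comm 2 i]

theorem exp_conj {A : Type*} [Ring A] [Algebra ℚ A] {u v a : A} (huv : u * v = 1) (hvu : v * u = 1)
    (ha : IsNilpotent a) : exp (u * a * v) = u * exp a * v := by
  let f : A →+* A :=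
    { toFun := fun x => u * x * v
      map_one' := by rw [mul_one, huv]
      map_mul' := fun x y => by
        calc u * (x * y) * v = u * x * (v * u) * y * v := by rw [hvu]; noncomm_ring
          _ = _ := by noncomm_ring
      map_zero' := by simp
      map_add' := fun x y => by noncomm_ring }
  exact (map_exp ha f).symm

theorem exp_nsmul {A : Type*} [Ring A] [Algebra ℚ A] {a : A} (ha : IsNilpotent a) (n : ℕ) :
    exp (n • a) = exp a ^ n := by
  induction n with
  | zero => simp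
  | succ n ih =>
    rw [succ_nsmul, exp_add_of_commute ((Commute.refl a).smul_left n) (ha.smul n) ha, ih,
      _root_.pow_succ]

theorem cancel_X {A W : Matrix ι ι k[X]} (h : (X : k[X]) • A = (X ^ 2 : k[X]) • W) :
    A.map (aeval (0 : k)) = 0 := by
  ext i j
  have h1 : X * A i j = X * (X * W i j) := by
    have := congrFun (congrFun h i) j
    simp only [Matrix.smul_apply, smul_eq_mul] at this
    rw [this]; ring
  rw [map_apply, mul_left_cancel₀ X_ne_zero h1]; simp

theorem map_smul_ev (τ : k) (c : k[X]) (A : Matrix ι ι k[X]) :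
    (c • A).map (aeval τ) = aeval τ c • A.map (aeval τ) := by ext i j; simp

theorem map_C_ev (τ : k) (x : Matrix ι ι k) : (x.map (algebraMap k k[X])).map (aeval τ) = x := by
  ext i j; simp

namespace Chart
variable (C : Chart w i0 g) (I : Ideal (MvPolynomial C.κ k))

/-- the zero set of an ideal of the chart ring -/
def Zs : Set (ι → k) := {x | C.Orb x ∧ ∀ f ∈ I, MvPolynomial.aeval (C.Psi x) f = 0}

/-- matrices preserving the zero set -/
def Pres (M : Matrix ι ι k) : Prop := ∀ y ∈ C.Zs I, M *ᵥ y ∈ C.Zs I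

variable {C I}

theorem Pres.mul {M M' : Matrix ι ι k} (h : C.Pres I M) (h' : C.Pres I M') : C.Pres I (M * M') :=
  fun y hy => by rw [← mulVec_mulVec]; exact h _ (h' y hy)

theorem Pres.one : C.Pres I 1 := fun y hy => by rwa [one_mulVec]

theorem pres_clos (hg : IsGr w g) {A : Matrix ι ι k[X]} (hA : A ∈ (filt w k[X]).F 0)
    (hinf : {τ : k | C.Pres I (exp (A.map (aeval τ)))}.Infinite) {τ : k}
    (hτ : A.map (aeval τ) ∈ g) : C.Pres I (exp (A.map (aeval τ))) := by
  intro y hy
  refine ⟨hy.1.mul hg (gR_self.2 hτ), fun f hf => ?_⟩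
  let v : ι → k[X] := exp A *ᵥ fun i => algebraMap k k[X] (y i)
  have hv : ∀ σ : k, (aeval σ : k[X] →ₐ[k] k) ∘ v = exp (A.map (aeval σ)) *ᵥ y := by
    intro σ
    rw [mulVec_map, exp_map' _ hA]
    congr 1; funext i; simp
  have h0 : MvPolynomial.aeval (C.Psi v) f = 0 := by
    refine eq_zero_of_infinite_isRoot _ (hinf.mono fun σ hσ => ?_)
    have := C.aeval_Psi (aeval σ : k[X] →ₐ[k] k) v f
    rw [hv, (hσ y hy).2 f hf, coe_aeval_eq_eval] at this
    exact this
  rw [← hv, ← C.aeval_Psi, h0, map_zero]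

/-- the one parameter group of `x` preserves the zero set -/
def InS (C : Chart w i0 g) (I : Ideal (MvPolynomial C.κ k)) (x : Matrix ι ι k) : Prop :=
  x ∈ g ∧ ∀ σ : k, C.Pres I (exp (σ • x))

theorem inS_of_pres (hg : IsGr w g) {x : Matrix ι ι k} (hx : x ∈ g) (h : C.Pres I (exp x)) :
    C.InS I x := by
  refine ⟨hx, fun σ => ?_⟩
  have e : ∀ τ : k, ((Polynomial.X : k[X]) • x.map (algebraMap k k[X])).map (aeval τ) = τ • x := fun τ => by
    rw [map_smul_ev, map_C_ev, aeval_X]
  rw [← e]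
  refine pres_clos hg (F_smul w _ (hg.le0 (mem_gR hx))) ?_ (by rw [e]; exact g.smul_mem _ hx)
  refine (Set.infinite_range_of_injective (Nat.cast_injective (R := k))).mono ?_
  rintro _ ⟨n, rfl⟩
  rw [Set.mem_ofPred_eq, e, Nat.cast_smul_eq_nsmul,
    exp_nsmul ((filt w k).nil (hg.le0 (gR_self.2 hx)))]
  induction n with
  | zero => rw [pow_zero]; exact Pres.one
  | succ n ih => rw [_root_.pow_succ]; exact ih.mul h

theorem InS.smul {x : Matrix ι ι k} (h : C.InS I x) (c : k) : C.InS I (c • x) :=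
  ⟨g.smul_mem _ h.1, fun σ => by rw [smul_smul]; exact h.2 _⟩

theorem inS_lim (hg : IsGr w g) {A : Matrix ι ι k[X]} (hA : A ∈ (filt w k[X]).F 0)
    (h : ∀ τ : k, τ ≠ 0 → C.InS I (A.map (aeval τ))) (h0 : A.map (aeval (0 : k)) ∈ g) :
    C.InS I (A.map (aeval (0 : k))) :=
  inS_of_pres hg h0 (pres_clos hg hA (((Set.finite_singleton (0 : k)).infinite_compl).mono
    fun τ hτ => by simpa using (h τ hτ).2 1) h0)

theorem InS.add (hg : IsGr w g) {x y : Matrix ι ι k} (hx : C.InS I x) (hy : C.InS I y) :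
    C.InS I (x + y) := by
  have hx' := mem_gR (R := k[X]) hx.1
  have hy' := mem_gR (R := k[X]) hy.1
  obtain ⟨Z, hZ, e⟩ := hg.exp_mul (Submodule.smul_mem _ (Polynomial.X : k[X]) hx')
    (Submodule.smul_mem _ (Polynomial.X : k[X]) hy')
  have ev : ∀ τ : k, exp (Z.map (aeval τ)) = exp (τ • x) * exp (τ • y) := by
    intro τ
    rw [← exp_map' _ (hg.le0 hZ), ← e, Matrix.map_mul (f := (aeval τ : k[X] →ₐ[k] k)),
      exp_map' _ (F_smul w _ (hg.le0 hx')), exp_map' _ (F_smul w _ (hg.le0 hy')), map_smul_ev,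
      map_smul_ev, map_C_ev, map_C_ev, aeval_X]
  have z0 : Z.map (aeval (0 : k)) = 0 :=
    (filt w k).exp_inj (hg.le0 (gR_map _ hZ)) (zero_mem _) (by rw [ev]; simp)
  let A : Matrix ι ι k[X] := Z.map divX
  have eA : Z = (Polynomial.X : k[X]) • A := by
    ext1 i j
    have h1 : (Z i j).coeff 0 = 0 := by
      rw [coeff_zero_eq_aeval_zero]; exact congrFun (congrFun z0 i) j
    have := X_mul_divX_add (Z i j)
    rw [h1, C_0, add_zero] at this
    exact this.symm
  have hA : A ∈ (filt w k[X]).F 0 := fun i j h => hg.le0 hZ i j fun h0 => h (by simp [A, h0])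
  obtain ⟨W, eW⟩ := exp_X_smul w hA
  obtain ⟨W1, eW1⟩ := exp_X_smul w (hg.le0 hx')
  obtain ⟨W2, eW2⟩ := exp_X_smul w (hg.le0 hy')
  have a0 : A.map (aeval (0 : k)) = x + y := by
    rw [eA, eW, eW1, eW2] at e
    set a := x.map (algebraMap k k[X])
    set b := y.map (algebraMap k k[X])
    have h2 : (Polynomial.X : k[X]) • (A - a - b) = (Polynomial.X ^ 2 : k[X]) • (W1 + W2 + a * b + (Polynomial.X : k[X]) • (a * W2) +
        (Polynomial.X : k[X]) • (W1 * b) + (Polynomial.X ^ 2 : k[X]) • (W1 * W2) - W) := by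
      have e' := sub_eq_zero.2 e
      rw [← sub_eq_zero, ← neg_eq_zero, ← e']
      simp only [mul_add, add_mul, mul_one, one_mul, smul_mul_assoc, mul_smul_comm]
      module
    have h3 := cancel_X h2
    rw [Matrix.map_sub _ (map_sub _), Matrix.map_sub _ (map_sub _), map_C_ev, map_C_ev, sub_sub,
      sub_eq_zero] at h3
    exact h3
  rw [← a0]
  refine inS_lim hg hA (fun τ hτ => ?_) (by rw [a0]; exact add_mem hx.1 hy.1)
  have h4 := (inS_of_pres hg (gR_self.1 (gR_map (aeval τ) hZ))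
    (by rw [ev]; exact (hx.2 τ).mul (hy.2 τ))).smul τ⁻¹
  rwa [eA, map_smul_ev, aeval_X, smul_smul, inv_mul_cancel₀ hτ, one_smul] at h4

theorem InS.conj (hg : IsGr w g) {x y : Matrix ι ι k} (hx : C.InS I x) (hy : C.InS I y) :
    C.InS I (exp x * y * exp (-x)) := by
  have hx' := gR_self.2 hx.1
  have hy' := gR_self.2 hy.1
  have hn := (filt w k).nil (hg.le0 hx')
  have ec := exp_conj (exp_mul_exp_neg_self hn) (exp_neg_mul_exp_self hn)
    ((filt w k).nil (hg.le0 hy'))
  obtain ⟨z1, hz1, e1⟩ := hg.exp_mul hx' hy'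
  obtain ⟨z2, hz2, e2⟩ := hg.exp_mul hz1 (neg_mem hx')
  have hF : exp x * y * exp (-x) ∈ (filt w k).F 0 := by
    have h1 : exp x * y ∈ (filt w k).F 0 := by
      have := add_mem ((filt w k).anti 0 ((filt w k).mul_l 0 _ _
        ((filt w k).exp_sub_one (hg.le0 hx')) (hg.le0 hy'))) (hg.le0 hy')
      rwa [sub_mul, one_mul, sub_add_cancel] at this
    have := add_mem ((filt w k).anti 0 ((filt w k).mul_l 0 _ _ h1
      ((filt w k).exp_sub_one (hg.le0 (neg_mem hx'))))) h1
    rwa [mul_sub, mul_one, sub_add_cancel] at this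
  have e3 : exp x * y * exp (-x) = z2 :=
    (filt w k).exp_inj hF (hg.le0 hz2) (by rw [ec, e1, e2])
  refine inS_of_pres hg (by rw [e3]; exact gR_self.1 hz2) ?_
  rw [ec]
  exact ((by simpa using hx.2 1 : C.Pres I (exp x)).mul (by simpa using hy.2 1)).mul
    (by simpa using hx.2 (-1))

theorem InS.br (hg : IsGr w g) {x y : Matrix ι ι k} (hx : C.InS I x) (hy : C.InS I y) :
    C.InS I (x * y - y * x) := by
  have hx' := mem_gR (R := k[X]) hx.1
  have hy' := mem_gR (R := k[X]) hy.1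
  obtain ⟨W1, eW1⟩ := exp_X_smul w (hg.le0 hx')
  obtain ⟨W2, eW2⟩ := exp_X_smul w (neg_mem (hg.le0 hx'))
  set a := x.map (algebraMap k k[X]) with ha
  set b := y.map (algebraMap k k[X]) with hb
  set A : Matrix ι ι k[X] := a * b - b * a + (Polynomial.X : k[X]) • (W1 * b + b * W2 - a * b * a +
    (Polynomial.X : k[X]) • (a * b * W2) - (Polynomial.X : k[X]) • (W1 * b * a) + (Polynomial.X ^ 2 : k[X]) • (W1 * b * W2)) with hA
  have eQ : exp ((Polynomial.X : k[X]) • a) * b * exp ((Polynomial.X : k[X]) • -a) - b = (Polynomial.X : k[X]) • A := by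
    rw [eW1, eW2, hA]
    simp only [mul_add, add_mul, mul_one, one_mul, smul_mul_assoc, mul_smul_comm, mul_neg, smul_neg]
    module
  have ev : ∀ τ : k, τ • A.map (aeval τ) = exp (τ • x) * y * exp (-(τ • x)) - y := by
    intro τ
    have := congrArg (fun M => M.map (aeval τ : k[X] →ₐ[k] k)) eQ
    rw [map_smul_ev, aeval_X, Matrix.map_sub _ (map_sub _), Matrix.map_mul, Matrix.map_mul,
      exp_map' _ (F_smul w _ (hg.le0 hx')), exp_map' _ (F_smul w _ (neg_mem (hg.le0 hx'))),
      map_smul_ev, map_smul_ev, Matrix.map_neg _ (map_neg _), map_C_ev, map_C_ev, aeval_X,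
      smul_neg] at this
    exact this.symm
  have a0 : A.map (aeval (0 : k)) = x * y - y * x := by
    rw [hA, Matrix.map_add _ (map_add _), map_smul_ev, aeval_X, zero_smul, add_zero,
      Matrix.map_sub _ (map_sub _), Matrix.map_mul, Matrix.map_mul, map_C_ev, map_C_ev]
  have hS : ∀ τ : k, τ ≠ 0 → C.InS I (A.map (aeval τ)) := by
    intro τ hτ
    have h1 := (((hx.smul τ).conj hg hy).add hg (hy.smul (-1))).smul τ⁻¹
    rwa [neg_one_smul, ← sub_eq_add_neg, ← ev, smul_smul, inv_mul_cancel₀ hτ, one_smul] at h1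
  have hF : A ∈ (filt w k[X]).F 0 := by
    intro i j h
    refine ⟨?_, Nat.zero_le _⟩
    by_contra hc
    refine h (eq_zero_of_infinite_isRoot _
      (((Set.finite_singleton (0 : k)).infinite_compl).mono fun τ hτ => ?_))
    have := hg.nil _ (hS τ hτ).1 i j
    rw [map_apply, coe_aeval_eq_eval] at this
    by_contra h2
    exact hc (this h2)
  rw [← a0]
  exact inS_lim hg hF hS (by rw [a0]; exact hg.br _ hx.1 _ hy.1)

end Chart
end H61Z
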